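import Pool.Agent.H158_MS.Sys

/-!
# Names, bad sets and branches
-/

set_option autoImplicit false
set_option linter.unusedSectionVars false
set_option linter.unreachableTactic false
set_option linter.unusedTactic false

namespace Pool.Agent.H158_MS

open Pool.Agent.W868 Pool.Agent.W868.GM Pool.Agent.R597 Pool.Agent.Y588 Pool.Agent.H158_PC
open ZFSet (pair)

section
variable {V : Set ZFSet.{0}} (hL : Gd V) (hc : V.Countable)

include hL hc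

/-- Relations for the hereditarily finite parts of the values of names. -/
theorem rel {θ : ZFSet.{0}} (hθ : θ ∈ V) : ∃ F ∈ V, ∀ g', Gn V g' → ∀ z, IsHF z →
    (z ∈ ev (Gf g') θ ↔ ∃ n : ℕ, pair (cn n g') z ∈ F) := by
  have hV := hL.zf
  have hB := hV.base
  have he := hL.eg
  have ht : t0 ∈ V := hV.trans _ (PP_mem hV he) _ (cn_mem_PP _ _)
  have hP := forcing_PP hV he
  have hH := HFs_mem hV he
  have hD : D0 fun v : Fin 2 → ZFSet.{0} => v 0 ∈ v 1 := D0.mem (D0v.proj 0) (D0v.proj 1)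
  have hF0 : ∀ i : Fin 2, DfnF V V
      ((![fun w : Fin 1 → ZFSet.{0} => chk t0 (sn (w 0)), fun _ => θ] :
        Fin 2 → (Fin 1 → ZFSet.{0}) → ZFSet.{0}) i) := by
    intro i
    fin_cases i
    · exact DfnF.comp1 (f := chk t0) (dfn_chk hV ht) (hV.sn' (DfnF.proj 0))
    · exact DfnF.const hθ
  have hfd := Pool.Agent.H158_IT.fd hV hP hc hD hF0 (hV.fs' (DfnF.proj (0 : Fin 1)))
  have hFV := hV.sep_mem (Q := fun u => fs u ∈ PP ∧ ∀ G, IsGeneric V PP LL G → fs u ∈ G →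
    ev G (chk t0 (sn u)) ∈ ev G θ) hfd (hV.prod_mem hP.mem hH)
  refine ⟨_, hFV, fun g' hg' z hz => ?_⟩
  have hG' := gen_of_Gn hg'
  constructor
  · intro h1
    have hz' : z ∈ V := hf_memK hV hz
    obtain ⟨p, hp, hk⟩ := Pool.Agent.H158_IT.ft hV hP hD (v := ![chk t0 z, θ]) (by
      intro i
      fin_cases i
      · exact chk_mem hV ht hz'
      · exact hθ) hG' (by
      show ev (Gf g') (chk t0 z) ∈ ev (Gf g') θ
      rwa [ev_chk (t0_mem_Gf g')])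
    obtain ⟨k, rfl⟩ := mem_Gf.1 hp
    refine ⟨k, ZFSet.mem_sep.2 ⟨ZFSet.pair_mem_prod.2 ⟨cn_mem_PP _ _, mem_HFs.2 hz⟩, ?_, ?_⟩⟩
    · rw [fs_pair]
      exact cn_mem_PP _ _
    · intro G' hG' hkG'
      rw [fs_pair] at hkG'
      rw [sn_pair]
      exact hk G' hG' hkG'
  · rintro ⟨n, hn⟩
    obtain ⟨-, -, h1⟩ := ZFSet.mem_sep.1 hn
    have h2 := h1 _ hG' (by rw [fs_pair]; exact mem_Gf.2 ⟨n, rfl⟩)
    rwa [sn_pair, ev_chk (t0_mem_Gf g')] at h2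

omit hc in
/-- Sets that the generic real does not meet. -/
theorem bad {g : Set ℕ} (hg : Gn V g) {B : ZFSet.{0}} (hBV : B ∈ V) (h : ∀ n, cn n g ∉ B) :
    ∃ m : ℕ, ∀ a, pair a (cn m g) ∈ LL → a ∉ B := by
  have hV := hL.zf
  have hB := hV.base
  have he := hL.eg
  have hP := PP_mem hV he
  have hD : ZFSet.sep (fun a => a ∈ B ∨ ∀ b ∈ B, ¬ pair b a ∈ LL) PP ∈ V := by
    refine hV.sep_mem (Q := fun a => a ∈ B ∨ ∀ b ∈ B, ¬ pair b a ∈ LL) ?_ hP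
    refine (Dfn.mem (DfnF.proj 0) (DfnF.const hBV)).or ?_
    refine hB.ball (Q := fun b w => ¬ pair b (w 0) ∈ LL) (DfnF.const hBV) ?_
    exact Dfn.not (dLe hV he (DfnF.proj 0) (DfnF.proj 1))
  obtain ⟨n, hn⟩ := hg _ hD (fun x hx => (ZFSet.mem_sep.1 hx).1) (by
    intro p hp
    by_cases h1 : ∃ b ∈ B, pair b p ∈ LL
    · obtain ⟨b, hb, hbp⟩ := h1
      exact ⟨b, ZFSet.mem_sep.2 ⟨(le_PP hbp).1, Or.inl hb⟩, hbp⟩
    · exact ⟨p, ZFSet.mem_sep.2 ⟨hp, Or.inr fun b hb h2 => h1 ⟨b, hb, h2⟩⟩, leR hp⟩)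
  rcases (ZFSet.mem_sep.1 hn).2 with h1 | h1
  · exact absurd h1 (h n)
  · exact ⟨n, fun a ha hab => h1 a hab ha⟩

end

/-- Compactness. -/
theorem cpt {T : ZFSet.{0}} (hTP : T ⊆ PP) (hcl : ∀ a ∈ T, ∀ b, pair a b ∈ LL → b ∈ T)
    (hlong : ∀ n : ℕ, ∃ w ∈ T, n ≤ ln w) : ∃ x : Set ℕ, ∀ n, cn n x ∈ T := by
  have h1 : ∀ k : ℕ, ∃ (l : ℕ) (b : Set ℕ), cn l b ∈ T ∧ k ≤ l := by
    intro k
    obtain ⟨w, hw, h2⟩ := hlong k
    obtain ⟨l, b, rfl⟩ := mem_PP.1 (hTP hw)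
    rw [ln_cn] at h2
    exact ⟨l, b, hw, h2⟩
  choose l b hb hk using h1
  let x : Set ℕ := {i | ∀ᶠ k in (Filter.hyperfilter ℕ : Filter ℕ), i ∈ b k}
  refine ⟨x, fun n => ?_⟩
  have h2 : ∀ i, ∀ᶠ k in (Filter.hyperfilter ℕ : Filter ℕ), (i ∈ b k ↔ i ∈ x) := by
    intro i
    by_cases hi : i ∈ x
    · have h3 : ∀ᶠ k in (Filter.hyperfilter ℕ : Filter ℕ), i ∈ b k := hi
      exact h3.mono fun k hk => ⟨fun _ => hi, fun _ => hk⟩
    · have h3 : ¬ ∀ᶠ k in (Filter.hyperfilter ℕ : Filter ℕ), i ∈ b k := hi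
      have h4 : ∀ᶠ k in (Filter.hyperfilter ℕ : Filter ℕ), ¬ i ∈ b k :=
        Ultrafilter.eventually_not.2 h3
      exact h4.mono fun k hk => ⟨fun h => absurd h hk, fun h => absurd h hi⟩
  have h3 : ∀ᶠ k in (Filter.hyperfilter ℕ : Filter ℕ), ∀ i < n, (i ∈ b k ↔ i ∈ x) := by
    induction n with
    | zero => exact Filter.Eventually.of_forall fun k i hi => absurd hi (Nat.not_lt_zero i)
    | succ n ih =>
      filter_upwards [ih, h2 n] with k h4 h5 i hi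
      rcases Nat.lt_succ_iff_lt_or_eq.1 hi with h6 | h6
      · exact h4 i h6
      · rw [h6]
        exact h5
  have h4 : ∀ᶠ k in (Filter.hyperfilter ℕ : Filter ℕ), n ≤ k := by
    have h5 : ∀ᶠ k in (Filter.cofinite : Filter ℕ), n ≤ k := by
      rw [Nat.cofinite_eq_atTop]
      exact Filter.eventually_ge_atTop n
    exact Filter.hyperfilter_le_cofinite h5
  obtain ⟨k, h5, h6⟩ := (h3.and h4).exists
  refine hcl _ (hb k) _ (le_iff.2 ⟨le_trans h6 (hk k), fun i hi => h5 i hi⟩)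

/-- The conversion of finite sequences. -/
noncomputable def cv (r : ZFSet.{0}) : ZFSet.{0} :=
  pair (im fs r) (ZFSet.sep (fun i => pair i (nat 1) ∈ r) (im fs r))

theorem cv_rs (y : ℕ → ℕ) (n : ℕ) : cv (rs y n) = cn n {i | y i = 1} := by
  have h1 : im fs (rs y n) = nat n := by
    ext z
    rw [mem_im, mem_natK]
    constructor
    · rintro ⟨u, hu, rfl⟩
      obtain ⟨i, hi, rfl⟩ := mem_rs.1 hu
      exact ⟨i, hi, by rw [fs_pair]⟩
    · rintro ⟨i, hi, rfl⟩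
      exact ⟨_, mem_rs.2 ⟨i, hi, rfl⟩, by rw [fs_pair]⟩
  rw [cv, h1, cn]
  congr 1
  ext z
  rw [ZFSet.mem_sep, mem_sb, mem_natK]
  constructor
  · rintro ⟨⟨i, hi, rfl⟩, h2⟩
    obtain ⟨j, hj, h3⟩ := mem_rs.1 h2
    obtain ⟨h4, h5⟩ := ZFSet.pair_inj.1 h3
    rw [← nat_injective h4] at h5
    exact ⟨i, hi, (nat_injective h5).symm, rfl⟩
  · rintro ⟨i, hi, h2, rfl⟩
    refine ⟨⟨i, hi, rfl⟩, mem_rs.2 ⟨i, hi, ?_⟩⟩
    have h3 : y i = 1 := h2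
    rw [h3]

theorem dcv {M : Set ZFSet.{0}} (hM : IsZF M) {n : ℕ} {F : (Fin n → ZFSet.{0}) → ZFSet.{0}}
    (hF : DfnF M M F) : DfnF M M fun v => cv (F v) := by
  have h1 : DfnF M M fun v => im (fun p => fs p) (F v) :=
    hM.im' (h := fun p _ => fs p) hF (hM.fs' (DfnF.proj 0))
  refine hM.base.pair' h1 ?_
  refine hM.sep' (Q := fun i v => pair i (nat 1) ∈ F v) h1 ?_
  exact Dfn.mem (hM.base.pair' (DfnF.proj 0) (DfnF.const (hM.nat_mem 1))) hF.tail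

/-- Branches in models. -/
theorem brn {M : Set ZFSet.{0}} (hM : IsZF M) (he : eg ∈ M) {T : ZFSet.{0}} (hT : T ∈ M)
    {x : Set ℕ} (hx : ∀ n, cn n x ∈ T) : ∃ x', nm x' ∈ M ∧ ∀ n, cn n x' ∈ T := by
  have hT2 : ZFSet.sep (fun z => cv (sn z) ∈ T) HFs ∈ M :=
    hM.sep_mem (Q := fun z => cv (sn z) ∈ T) (Dfn.mem (dcv hM (hM.sn' (DfnF.proj 0)))
      (DfnF.const hT)) (HFs_mem hM he)
  have hmem : ∀ (y : ℕ → ℕ) (n : ℕ), pair (rs (fun _ => 0) n) (rs y n) ∈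
      ZFSet.sep (fun z => cv (sn z) ∈ T) HFs ↔ cn n {i | y i = 1} ∈ T := by
    intro y n
    rw [ZFSet.mem_sep, sn_pair, cv_rs, mem_HFs]
    exact ⟨fun h => h.2, fun h => ⟨(isHF_rs _ n).pair (isHF_rs y n), h⟩⟩
  obtain ⟨y', hy', h1⟩ := bra hM he (x := fun _ => 0) (cst_memR hM 0) hT2 (y := chr x) (by
    intro n
    rw [hmem]
    have : {i | chr x i = 1} = x := by
      ext i
      exact chr_eq_one
    rw [this]
    exact hx n)
  refine ⟨{i | y' i = 1}, ?_, fun n => (hmem y' n).1 (h1 n)⟩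
  have h2 : nm {i | y' i = 1} = ZFSet.sep (fun z => pair z (nat 1) ∈ code y') ZFSet.omega := by
    ext z
    rw [mem_nm, ZFSet.mem_sep]
    constructor
    · rintro ⟨i, hi, rfl⟩
      refine ⟨nat_mem_om i, mem_code.2 ⟨i, ?_⟩⟩
      have h3 : y' i = 1 := hi
      rw [h3]
    · rintro ⟨hz, h3⟩
      obtain ⟨i, rfl⟩ := mem_omega_iff.1 hz
      obtain ⟨j, h4⟩ := mem_code.1 h3
      obtain ⟨h5, h6⟩ := ZFSet.pair_inj.1 h4
      rw [← nat_injective h5] at h6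
      exact ⟨i, (nat_injective h6).symm, rfl⟩
  rw [h2]
  exact hM.sep_mem (Q := fun z => pair z (nat 1) ∈ code y') (Dfn.mem (hM.base.pair'
    (DfnF.proj 0) (DfnF.const (hM.nat_mem 1))) (DfnF.const hy')) hM.infinity

end Pool.Agent.H158_MS
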