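import Pool.Agent.H158_PC.Pi

/-!
# Coherent systems of Cohen conditions
-/

set_option autoImplicit false
set_option linter.unusedSectionVars false
set_option linter.unreachableTactic false
set_option linter.unusedTactic false

namespace Pool.Agent.H158_MS

open Pool.Agent.W868 Pool.Agent.W868.GM Pool.Agent.R597 Pool.Agent.Y588 Pool.Agent.H158_PC
open ZFSet (pair)

/-- Comparable conditions. -/
def cM (a b : ZFSet.{0}) : Prop := pair a b ∈ LL ∨ pair b a ∈ LL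

theorem cM.symm {a b : ZFSet.{0}} (h : cM a b) : cM b a := Or.symm h

theorem le_PP {a b : ZFSet.{0}} (h : pair a b ∈ LL) : a ∈ PP ∧ b ∈ PP := by
  have h1 := (ZFSet.mem_sep.1 h).1
  exact ZFSet.pair_mem_prod.1 h1

theorem leR {a : ZFSet.{0}} (h : a ∈ PP) : pair a a ∈ LL := by
  obtain ⟨n, b, rfl⟩ := mem_PP.1 h
  exact le_iff.2 ⟨le_rfl, fun _ _ => Iff.rfl⟩

theorem leT {a b c : ZFSet.{0}} (h : pair a b ∈ LL) (h' : pair b c ∈ LL) : pair a c ∈ LL := by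
  obtain ⟨n, x, rfl⟩ := mem_PP.1 (le_PP h).1
  obtain ⟨m, y, rfl⟩ := mem_PP.1 (le_PP h).2
  obtain ⟨k, z, rfl⟩ := mem_PP.1 (le_PP h').2
  obtain ⟨h1, h2⟩ := le_iff.1 h
  obtain ⟨h3, h4⟩ := le_iff.1 h'
  exact le_iff.2 ⟨le_trans h3 h1, fun i hi => (h2 i (lt_of_lt_of_le hi h3)).trans (h4 i hi)⟩

theorem tri {a b c : ZFSet.{0}} (h : pair a b ∈ LL) (h' : pair a c ∈ LL) : cM b c := by
  obtain ⟨n, x, rfl⟩ := mem_PP.1 (le_PP h).1
  obtain ⟨m, y, rfl⟩ := mem_PP.1 (le_PP h).2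
  obtain ⟨k, z, rfl⟩ := mem_PP.1 (le_PP h').2
  obtain ⟨h1, h2⟩ := le_iff.1 h
  obtain ⟨h3, h4⟩ := le_iff.1 h'
  rcases le_total m k with h5 | h5
  · exact Or.inr (le_iff.2 ⟨h5, fun i hi => (h4 i (lt_of_lt_of_le hi h5)).symm.trans (h2 i hi)⟩)
  · exact Or.inl (le_iff.2 ⟨h5, fun i hi => (h2 i (lt_of_lt_of_le hi h5)).symm.trans (h4 i hi)⟩)

/-- The length of a condition. -/
noncomputable def ln (a : ZFSet.{0}) : ℕ :=
  open Classical in if h : ∃ n : ℕ, fs a = nat n then h.choose else 0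

theorem ln_cn (n : ℕ) (b : Set ℕ) : ln (cn n b) = n := by
  have h : ∃ m : ℕ, fs (cn n b) = nat m := ⟨n, by rw [cn, fs_pair]⟩
  rw [ln, dif_pos h]
  have h1 := h.choose_spec
  nth_rw 1 [cn] at h1
  rw [fs_pair] at h1
  exact (nat_injective h1).symm

theorem ln_le {a b : ZFSet.{0}} (h : pair a b ∈ LL) : ln b ≤ ln a := by
  obtain ⟨n, x, rfl⟩ := mem_PP.1 (le_PP h).1
  obtain ⟨m, y, rfl⟩ := mem_PP.1 (le_PP h).2
  rw [ln_cn, ln_cn]
  exact (le_iff.1 h).1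

theorem le_of_ln {a b : ZFSet.{0}} (h : cM a b) (h' : ln b ≤ ln a) : pair a b ∈ LL := by
  rcases h with h | h
  · exact h
  · obtain ⟨n, x, rfl⟩ := mem_PP.1 (le_PP h).1
    obtain ⟨m, y, rfl⟩ := mem_PP.1 (le_PP h).2
    rw [ln_cn, ln_cn] at h'
    obtain ⟨h1, h2⟩ := le_iff.1 h
    exact le_iff.2 ⟨h', fun i hi => (h2 i (lt_of_lt_of_le hi h')).symm⟩

theorem exists_ext {a : ZFSet.{0}} (ha : a ∈ PP) (n : ℕ) : ∃ b, pair b a ∈ LL ∧ n ≤ ln b := by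
  obtain ⟨m, x, rfl⟩ := mem_PP.1 ha
  exact ⟨cn (max n m) x, le_iff.2 ⟨le_max_right _ _, fun _ _ => Iff.rfl⟩, by
    rw [ln_cn]; exact le_max_left _ _⟩

theorem cM_le {a b a' b' : ZFSet.{0}} (h : cM a b) (ha : pair a a' ∈ LL) (hb : pair b b' ∈ LL) :
    cM a' b' := by
  rcases h with h | h
  · exact tri ha (leT h hb)
  · exact tri (leT h ha) hb

theorem IsHF_sub {y : ZFSet.{0}} (hy : IsHF y) : ∀ x, x ⊆ y → IsHF x := by
  classical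
  have : IsHF y ∧ ∀ x, x ⊆ y → IsHF x := by
    refine IsHF.ind (Q := fun y => IsHF y ∧ ∀ x, x ⊆ y → IsHF x) ?_ ?_ hy
    · refine ⟨isHF_empty, fun x hx => ?_⟩
      have : x = ∅ := by
        ext z
        exact ⟨fun h => hx h, fun h => absurd h (ZFSet.notMem_empty _)⟩
      rw [this]
      exact isHF_empty
    · intro x y hx hy
      refine ⟨hx.1.insert hy.1, fun z hz => ?_⟩
      have h1 : IsHF (ZFSet.sep (fun u => u ≠ x) z) := by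
        refine hy.2 _ fun u hu => ?_
        obtain ⟨h2, h3⟩ := ZFSet.mem_sep.1 hu
        rcases ZFSet.mem_insert_iff.1 (hz h2) with h4 | h4
        · exact absurd h4 h3
        · exact h4
      by_cases hxz : x ∈ z
      · have : z = insert x (ZFSet.sep (fun u => u ≠ x) z) := by
          ext u
          rw [ZFSet.mem_insert_iff, ZFSet.mem_sep]
          constructor
          · intro h
            by_cases h2 : u = x
            · exact Or.inl h2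
            · exact Or.inr ⟨h, h2⟩
          · rintro (rfl | h)
            · exact hxz
            · exact h.1
        rw [this]
        exact hx.1.insert h1
      · have : z = ZFSet.sep (fun u => u ≠ x) z := by
          ext u
          rw [ZFSet.mem_sep]
          exact ⟨fun h => ⟨h, fun h2 => hxz (h2 ▸ h)⟩, fun h => h.1⟩
        rw [this]
        exact h1
  exact this.2

theorem bdd {p : ZFSet.{0}} (hp : IsHF p) : ∃ N : ℕ, ∀ u ∈ p, ln (fs u) ≤ N ∧ ln (sn u) ≤ N := by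
  refine IsHF.ind (Q := fun p => ∃ N : ℕ, ∀ u ∈ p, ln (fs u) ≤ N ∧ ln (sn u) ≤ N) ?_ ?_ hp
  · exact ⟨0, fun u hu => absurd hu (ZFSet.notMem_empty _)⟩
  · rintro x y - ⟨N, hN⟩
    refine ⟨max N (max (ln (fs x)) (ln (sn x))), fun u hu => ?_⟩
    rcases ZFSet.mem_insert_iff.1 hu with rfl | h
    · exact ⟨le_trans (le_max_left _ _) (le_max_right _ _),
        le_trans (le_max_right _ _) (le_max_right _ _)⟩
    · exact ⟨le_trans (hN u h).1 (le_max_left _ _), le_trans (hN u h).2 (le_max_left _ _)⟩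

/-- Coherent sets of pairs. -/
def coh (p : ZFSet.{0}) : Prop := ∀ u ∈ p, ∀ u' ∈ p, cM (fs u) (fs u') → cM (sn u) (sn u')

/-- The finite coherent sets. -/
noncomputable def Wf (Tt : ZFSet.{0}) : ZFSet.{0} := ZFSet.sep (fun p => p ⊆ Tt ∧ coh p) HFs

theorem mem_Wf {Tt p : ZFSet.{0}} : p ∈ Wf Tt ↔ IsHF p ∧ p ⊆ Tt ∧ coh p := by
  rw [Wf, ZFSet.mem_sep, mem_HFs]

/-- The set `p` reaches the condition `v` below `s`. -/
def rch (p s v : ZFSet.{0}) : Prop := ∃ u ∈ p, pair (fs u) s ∈ LL ∧ pair (sn u) v ∈ LL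

/-- The set `p` has no extension that reaches. -/
def kll (W p s v : ZFSet.{0}) : Prop := ∀ q ∈ W, p ⊆ q → ¬ rch q s v

/-- The set `p` can reach everything below. -/
def rob (W p s w : ZFSet.{0}) : Prop :=
  ∀ v ∈ PP, pair v w ∈ LL → ∀ q ∈ W, p ⊆ q → ¬ kll W q s v

structure TT (V : Set ZFSet.{0}) (Tt sT : ZFSet.{0}) : Prop where
  mem : Tt ∈ V
  sub : Tt ⊆ ZFSet.prod PP PP
  sP : sT ∈ PP
  dn : ∀ s s' w, pair s w ∈ Tt → pair s' s ∈ LL → pair s' w ∈ Tt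
  rt : ∀ s, pair s sT ∈ LL → pair s (cn 0 ∅) ∈ Tt
  sp : ∀ s w, pair s w ∈ Tt → pair s sT ∈ LL → ∃ s' w1 w2, pair s' s ∈ LL ∧ pair w1 w ∈ LL ∧
    pair w2 w ∈ LL ∧ ¬ cM w1 w2 ∧ pair s' w1 ∈ Tt ∧ pair s' w2 ∈ Tt
  st : ∀ D ∈ V, D ⊆ PP → (∀ a ∈ PP, ∃ b ∈ D, pair b a ∈ LL) →
    (∀ a ∈ D, ∀ b, pair b a ∈ LL → b ∈ D) → ∀ s, pair s sT ∈ LL → ∃ s' n, pair s' s ∈ LL ∧
      ∀ s'' w, pair s'' s' ∈ LL → pair s'' w ∈ Tt → n ≤ ln w → w ∈ D

theorem rch.mono {p q s v : ZFSet.{0}} (h : rch p s v) (hq : p ⊆ q) : rch q s v := by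
  obtain ⟨u, hu, h1⟩ := h
  exact ⟨u, hq hu, h1⟩

theorem rob.mono {W p q s w v : ZFSet.{0}} (h : rob W p s w) (hq : p ⊆ q) (hv : pair v w ∈ LL) :
    rob W q s v := fun v' hv' h1 r hr h2 => h v' hv' (leT h1 hv) r hr (fun _ hx => h2 (hq hx))

theorem rob.rch {W p s w : ZFSet.{0}} (h : rob W p s w) (hp : p ∈ W) (hw : w ∈ PP) :
    ∃ q ∈ W, p ⊆ q ∧ rch q s w := by
  have h1 := h w hw (leR hw) p hp (fun _ hx => hx)
  unfold kll at h1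
  push Not at h1
  exact h1

section
variable {V : Set ZFSet.{0}} {Tt sT : ZFSet.{0}} (hT : TT V Tt sT)

include hT

theorem TT.PPs {s w : ZFSet.{0}} (h : pair s w ∈ Tt) : s ∈ PP ∧ w ∈ PP :=
  ZFSet.pair_mem_prod.1 (hT.sub h)

theorem TT.isp {u : ZFSet.{0}} (h : u ∈ Tt) : u = pair (fs u) (sn u) := by
  obtain ⟨a, -, b, -, rfl⟩ := ZFSet.mem_prod.1 (hT.sub h)
  rw [fs_pair, sn_pair]

/-- Long conditions. -/
theorem TT.grow {s w : ZFSet.{0}} (h : pair s w ∈ Tt) (hs : pair s sT ∈ LL) (n : ℕ) :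
    ∃ s' w', pair s' s ∈ LL ∧ pair w' w ∈ LL ∧ pair s' w' ∈ Tt ∧ n ≤ ln w' := by
  induction n with
  | zero => exact ⟨s, w, leR (hT.PPs h).1, leR (hT.PPs h).2, h, Nat.zero_le _⟩
  | succ n ih =>
    obtain ⟨s', w', h1, h2, h3, h4⟩ := ih
    obtain ⟨s'', w1, w2, h5, h6, h7, h8, h9, h10⟩ := hT.sp _ _ h3 (leT h1 hs)
    refine ⟨s'', w1, leT h5 h1, leT h6 h2, h9, ?_⟩
    by_contra hcon
    have h11 : ln w1 ≤ ln w' := by omega
    have h12 : pair w' w1 ∈ LL := le_of_ln (Or.inr h6) h11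
    exact h8 (Or.inr (leT h7 h12))

/-- Adding a pair. -/
theorem TT.add {p s v : ZFSet.{0}} (hp : p ∈ Wf Tt) (h : pair s v ∈ Tt)
    (h' : ∀ u ∈ p, cM (fs u) s → cM (sn u) v) : insert (pair s v) p ∈ Wf Tt := by
  obtain ⟨h1, h2, h3⟩ := mem_Wf.1 hp
  obtain ⟨hs, hv⟩ := hT.PPs h
  refine mem_Wf.2 ⟨?_, ?_, ?_⟩
  · obtain ⟨n, b, rfl⟩ := mem_PP.1 hs
    obtain ⟨m, c, rfl⟩ := mem_PP.1 hv
    exact ((isHF_cn n b).pair (isHF_cn m c)).insert h1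
  · intro u hu
    rcases ZFSet.mem_insert_iff.1 hu with rfl | h4
    · exact h
    · exact h2 h4
  · intro u hu u' hu' hc
    rcases ZFSet.mem_insert_iff.1 hu with rfl | h4
    · rcases ZFSet.mem_insert_iff.1 hu' with rfl | h5
      · exact Or.inl (leR (by rw [sn_pair]; exact hv))
      · rw [fs_pair] at hc
        rw [sn_pair]
        exact (h' _ h5 hc.symm).symm
    · rcases ZFSet.mem_insert_iff.1 hu' with rfl | h5
      · rw [fs_pair] at hc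
        rw [sn_pair]
        exact h' _ h4 hc
      · exact h3 u h4 u' h5 hc

/-- The longest condition given by a coherent set. -/
theorem TT.top {p s : ZFSet.{0}} (hp : p ∈ Wf Tt) (hs : pair s sT ∈ LL)
    (hl : ∀ u ∈ p, ln (fs u) ≤ ln s) :
    ∃ v, pair s v ∈ Tt ∧ ∀ u ∈ p, cM (fs u) s → pair v (sn u) ∈ LL := by
  obtain ⟨h1, h2, h3⟩ := mem_Wf.1 hp
  by_cases hne : ∃ u ∈ p, cM (fs u) s
  · obtain ⟨N, hN⟩ := bdd h1
    set S : Set ℕ := {k | ∃ u ∈ p, cM (fs u) s ∧ ln (sn u) = k} with hS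
    have hSn : S.Nonempty := by
      obtain ⟨u, hu, h4⟩ := hne
      exact ⟨_, u, hu, h4, rfl⟩
    have hSb : BddAbove S := by
      refine ⟨N, ?_⟩
      rintro k ⟨u, hu, -, rfl⟩
      exact (hN u hu).2
    obtain ⟨u, hu, h4, h5⟩ := Nat.sSup_mem hSn hSb
    have h6 : pair s (fs u) ∈ LL := le_of_ln h4.symm (hl u hu)
    refine ⟨sn u, ?_, fun u' hu' h7 => ?_⟩
    · refine hT.dn (fs u) s _ ?_ h6
      rw [← hT.isp (h2 hu)]
      exact h2 hu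
    · have h8 : pair s (fs u') ∈ LL := le_of_ln h7.symm (hl u' hu')
      refine le_of_ln (h3 u hu u' hu' (tri h6 h8)) ?_
      rw [h5]
      exact le_csSup hSb ⟨u', hu', h7, rfl⟩
  · refine ⟨cn 0 ∅, hT.rt s hs, fun u hu h => absurd ⟨u, hu, h⟩ hne⟩

/-- Totality. -/
theorem TT.tot {p s : ZFSet.{0}} (hp : p ∈ Wf Tt) (hs : pair s sT ∈ LL) (n : ℕ) :
    ∃ q ∈ Wf Tt, p ⊆ q ∧ ∃ u ∈ q, pair (fs u) s ∈ LL ∧ n ≤ ln (sn u) := by
  obtain ⟨N, hN⟩ := bdd (mem_Wf.1 hp).1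
  obtain ⟨s', h1, h2⟩ := exists_ext (le_PP hs).1 N
  obtain ⟨v, h3, h4⟩ := hT.top hp (leT h1 hs) fun u hu => le_trans (hN u hu).1 h2
  obtain ⟨s'', w, h5, h6, h7, h8⟩ := hT.grow h3 (leT h1 hs) n
  refine ⟨insert (pair s'' w) p, hT.add hp h7 fun u hu hc => ?_, fun x hx =>
    ZFSet.mem_insert_iff.2 (Or.inr hx), _, ZFSet.mem_insert_iff.2 (Or.inl rfl), ?_, ?_⟩
  · have h9 : pair s'' (fs u) ∈ LL := le_of_ln hc.symm
      (le_trans (le_trans (hN u hu).1 h2) (ln_le h5))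
    exact Or.inr (leT h6 (h4 u hu (tri h9 h5)))
  · rw [fs_pair]
    exact leT h5 h1
  · rw [sn_pair]
    exact h8

/-- The main step. -/
theorem TT.Fd (hA : ∀ p ∈ Wf Tt, ∀ s, pair s sT ∈ LL → ∃ q ∈ Wf Tt, p ⊆ q ∧ ∃ w ∈ PP,
      rob (Wf Tt) q s w) {p s : ZFSet.{0}} (hp : p ∈ Wf Tt) (hs : pair s sT ∈ LL) :
    ∃ q ∈ Wf Tt, p ⊆ q ∧ ∃ s0 s1 w, pair s0 s ∈ LL ∧ pair s1 s ∈ LL ∧ ¬ cM s0 s1 ∧ w ∈ PP ∧
      rob (Wf Tt) q s0 w ∧ rob (Wf Tt) q s1 w := by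
  obtain ⟨p', hp', hpp', w', hw', hr1⟩ := hA p hp s hs
  obtain ⟨p2, hp2, hpp2, u, hu, hu1, hu2⟩ := hr1.rch hp' hw'
  obtain ⟨N, hN⟩ := bdd (mem_Wf.1 hp2).1
  obtain ⟨t, ht1, ht2⟩ := exists_ext (le_PP hu1).1 N
  have hts : pair t sT ∈ LL := leT ht1 (leT hu1 hs)
  obtain ⟨v1, hv1, hv2⟩ := hT.top hp2 hts fun u hu => le_trans (hN u hu).1 ht2
  have hv1u : pair v1 (sn u) ∈ LL := hv2 u hu (Or.inr ht1)
  obtain ⟨s0, v, v', h1, h2, h3, h4, h5, h6⟩ := hT.sp _ _ hv1 hts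
  have hs0s : pair s0 s ∈ LL := leT h1 (leT ht1 hu1)
  have hs0T : pair s0 sT ∈ LL := leT hs0s hs
  have hlow : ∀ x ∈ p2, cM (fs x) s0 → pair v1 (sn x) ∈ LL := by
    intro x hx hc
    have h9 : pair s0 (fs x) ∈ LL := le_of_ln hc.symm
      (le_trans (le_trans (hN x hx).1 ht2) (ln_le h1))
    exact hv2 x hx (tri h9 h1)
  have hq1 := hT.add hp2 h5 fun x hx hc => Or.inr (leT h2 (hlow x hx hc))
  obtain ⟨p3, hp3, hpp3, v0', hv0', hr2⟩ := hA _ hq1 s0 hs0T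
  obtain ⟨N3, hN3⟩ := bdd (mem_Wf.1 hp3).1
  obtain ⟨v0, hv0, hv0l⟩ := exists_ext hv0' N3
  have hv0P := (le_PP hv0).1
  have hr3 : rob (Wf Tt) p3 s0 v0 := hr2.mono (fun _ hx => hx) hv0
  have hp23 : p2 ⊆ p3 := fun x hx => hpp3 (ZFSet.mem_insert_iff.2 (Or.inr hx))
  -- everything above is above `v0`
  have habv : ∀ x ∈ p3, pair s0 (fs x) ∈ LL → pair v0 (sn x) ∈ LL := by
    intro x hx hx2
    obtain ⟨r, hr, hpr, y, hy, hy1, hy2⟩ := hr3.rch hp3 hv0P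
    have h7 := (mem_Wf.1 hr).2.2 x (hpr hx) y hy (Or.inr (leT hy1 hx2))
    have h8 : pair (fs x) (sn x) ∈ Tt := by
      rw [← hT.isp ((mem_Wf.1 hp3).2.1 hx)]
      exact (mem_Wf.1 hp3).2.1 hx
    exact le_of_ln (cM_le h7 (leR (hT.PPs h8).2) hy2).symm (le_trans (hN3 x hx).2 hv0l)
  have hv0v : pair v0 v ∈ LL := by
    have h7 := habv _ (hpp3 (ZFSet.mem_insert_iff.2 (Or.inl rfl))) (by
      rw [fs_pair]; exact leR (le_PP h1).1)
    rwa [sn_pair] at h7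
  -- the other side
  have hq2 : insert (pair s0 v') (ZFSet.sep (fun x => x ∈ p2 ∨ ¬ cM (fs x) s0) p3) ∈ Wf Tt := by
    refine hT.add (mem_Wf.2 ⟨IsHF_sub (mem_Wf.1 hp3).1 _ fun x hx => (ZFSet.mem_sep.1 hx).1,
      fun x hx => (mem_Wf.1 hp3).2.1 (ZFSet.mem_sep.1 hx).1, fun x hx y hy hc =>
      (mem_Wf.1 hp3).2.2 x (ZFSet.mem_sep.1 hx).1 y (ZFSet.mem_sep.1 hy).1 hc⟩) h6 ?_
    intro x hx hc
    rcases (ZFSet.mem_sep.1 hx).2 with h7 | h7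
    · exact Or.inr (leT h3 (hlow x h7 hc))
    · exact absurd hc h7
  set q2 := insert (pair s0 v') (ZFSet.sep (fun x => x ∈ p2 ∨ ¬ cM (fs x) s0) p3) with hq2d
  have hv0w' : pair v0 w' ∈ LL := leT hv0v (leT h2 (leT hv1u hu2))
  have hpq2 : p' ⊆ q2 := fun x hx => ZFSet.mem_insert_iff.2 (Or.inr (ZFSet.mem_sep.2
    ⟨hp23 (hpp2 hx), Or.inl (hpp2 hx)⟩))
  obtain ⟨q3, hq3, hqq3, y, hy, hy1, hy2⟩ := (hr1.mono hpq2 hv0w').rch hq2 hv0P
  have hyT := (mem_Wf.1 hq3).2.1 hy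
  have hyp := hT.isp hyT
  have hinc : ¬ cM s0 (fs y) := by
    intro hc
    have h7 := (mem_Wf.1 hq3).2.2 _ (hqq3 (ZFSet.mem_insert_iff.2 (Or.inl rfl))) y hy (by
      rw [fs_pair]; exact hc)
    rw [sn_pair] at h7
    have h8 : cM v' v := cM_le h7 (leR (le_PP h3).1) (leT hy2 hv0v)
    exact h4 h8.symm
  have hq4 := hT.add (s := fs y) (v := sn y) hp3 (by rw [← hyp]; exact hyT) (by
    intro x hx hc
    by_cases h7 : cM (fs x) s0
    · rcases h7 with h8 | h8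
      · exact absurd (cM_le hc h8 (leR (le_PP hy1).1)) hinc
      · exact Or.inr (leT hy2 (habv x hx h8))
    · exact (mem_Wf.1 hq3).2.2 x (hqq3 (ZFSet.mem_insert_iff.2 (Or.inr (ZFSet.mem_sep.2
        ⟨hx, Or.inr h7⟩)))) y hy hc)
  obtain ⟨p5, hp5, hpp5, w5', hw5', hr5⟩ := hA _ hq4 (fs y) (leT hy1 hs)
  obtain ⟨w5, hw5, hw5l⟩ := exists_ext hw5' (ln (sn y))
  have hr6 : rob (Wf Tt) p5 (fs y) w5 := hr5.mono (fun _ hx => hx) hw5
  have hw5P := (le_PP hw5).1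
  have hyP : fs y ∈ PP := (le_PP hy1).1
  have hw5y : pair w5 (sn y) ∈ LL := by
    obtain ⟨r, hr, hpr, z, hz, hz1, hz2⟩ := hr6.rch hp5 hw5P
    have hyr : pair (fs y) (sn y) ∈ r := hpr (hpp5 (ZFSet.mem_insert_iff.2 (Or.inl rfl)))
    have h7 := (mem_Wf.1 hr).2.2 _ hyr z hz (by rw [fs_pair]; exact Or.inr hz1)
    rw [sn_pair] at h7
    exact le_of_ln (cM_le h7 (leR (le_PP hy2).1) hz2).symm hw5l
  refine ⟨p5, hp5, ?_, s0, fs y, w5, hs0s, hy1, hinc, hw5P, ?_, hr6⟩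
  · exact fun x hx => hpp5 (ZFSet.mem_insert_iff.2 (Or.inr (hp23 (hpp2 (hpp' hx)))))
  · exact hr3.mono (fun x hx => hpp5 (ZFSet.mem_insert_iff.2 (Or.inr hx))) (leT hw5y hy2)

end

end Pool.Agent.H158_MS
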