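import Pool.Agent.H158_MS.Fin

/-!
# The enumeration of the hereditarily finite sets is in every transitive model of ZF
-/

set_option autoImplicit false
set_option linter.unusedSectionVars false
set_option linter.unreachableTactic false
set_option linter.unusedTactic false

namespace Pool.Agent.H158_MS

open Pool.Agent.W868 Pool.Agent.W868.GM Pool.Agent.R597 Pool.Agent.Y588 Pool.Agent.H158_PC
open ZFSet (pair)

/-- The bits of the successor. -/
theorem tbs (k : ℕ) : ∀ n : ℕ, (n + 1).testBit k = true ↔ ∃ i, n.testBit i = false ∧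
    (∀ j < i, n.testBit j = true) ∧ (k = i ∨ (i < k ∧ n.testBit k = true)) := by
  induction k with
  | zero =>
    intro n
    rw [Nat.testBit_zero]
    constructor
    · intro h
      have h1 : (n + 1) % 2 = 1 := by simpa using h
      refine ⟨0, ?_, fun j hj => absurd hj (Nat.not_lt_zero j), Or.inl rfl⟩
      rw [Nat.testBit_zero]
      have h2 : n % 2 = 0 := by omega
      simp [h2]
    · rintro ⟨i, h1, h2, h3 | h3⟩
      · rw [← h3, Nat.testBit_zero] at h1
        have h4 : ¬ n % 2 = 1 := by simpa using h1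
        have h5 : (n + 1) % 2 = 1 := by omega
        simp [h5]
      · exact absurd h3.1 (Nat.not_lt_zero i)
  | succ k ih =>
    intro n
    rw [Nat.testBit_succ]
    rcases Nat.mod_two_eq_zero_or_one n with h0 | h0
    · have h1 : (n + 1) / 2 = n / 2 := by omega
      have h2 : n.testBit 0 = false := by rw [Nat.testBit_zero]; simp [h0]
      rw [h1, ← Nat.testBit_succ]
      constructor
      · intro h
        exact ⟨0, h2, fun j hj => absurd hj (Nat.not_lt_zero j), Or.inr ⟨Nat.succ_pos k, h⟩⟩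
      · rintro ⟨i, h3, h4, h5 | h5⟩
        · exfalso
          have h6 := h4 0 (by omega)
          rw [h2] at h6
          exact absurd h6 (by simp)
        · exact h5.2
    · have h1 : (n + 1) / 2 = n / 2 + 1 := by omega
      have h2 : n.testBit 0 = true := by rw [Nat.testBit_zero]; simp [h0]
      rw [h1, ih (n / 2)]
      constructor
      · rintro ⟨i, h3, h4, h5⟩
        refine ⟨i + 1, by rw [Nat.testBit_succ]; exact h3, fun j hj => ?_, ?_⟩
        · cases j with
          | zero => exact h2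
          | succ j => rw [Nat.testBit_succ]; exact h4 j (by omega)
        · rcases h5 with h5 | ⟨h5, h6⟩
          · exact Or.inl (by omega)
          · exact Or.inr ⟨by omega, by rw [Nat.testBit_succ]; exact h6⟩
      · rintro ⟨i, h3, h4, h5⟩
        cases i with
        | zero =>
          rw [h2] at h3
          exact absurd h3 (by simp)
        | succ i =>
          rw [Nat.testBit_succ] at h3
          refine ⟨i, h3, fun j hj => ?_, ?_⟩
          · have h6 := h4 (j + 1) (by omega)
            rwa [Nat.testBit_succ] at h6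
          · rcases h5 with h5 | ⟨h5, h6⟩
            · exact Or.inl (by omega)
            · rw [Nat.testBit_succ] at h6
              exact Or.inr ⟨by omega, h6⟩

theorem hf_mem_hf {i n : ℕ} : hf i ∈ hf n ↔ n.testBit i = true := by
  rw [mem_hf]
  constructor
  · rintro ⟨j, hj, h⟩
    rw [hf_inj h]
    exact hj
  · exact fun h => ⟨i, h, rfl⟩

/-- The enumeration of the hereditarily finite sets is in every transitive model of ZF. -/
theorem eg_mem {V : Set ZFSet.{0}} (hV : IsZF V) : eg ∈ V := by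
  classical
  have hB := hV.base
  have h0 := hV.empty_mem
  let G : ZFSet.{0} → ZFSet.{0} → ZFSet.{0} := fun z g => if z = ∅ then ∅ else
    im (fun k => ap g k) (ZFSet.sep (fun k => ∃ i ∈ z, ¬ ap g i ∈ ap g (ZFSet.sUnion z) ∧
      (∀ j ∈ i, ap g j ∈ ap g (ZFSet.sUnion z)) ∧ (k = i ∨ (i ∈ k ∧
        ap g k ∈ ap g (ZFSet.sUnion z)))) z)
  let F : ZFSet.{0} → ZFSet.{0} := wfF (fun z => z) ZFSet.mem_wf G
  have hF : ∀ z, F z = G z (gr F z) := fun z => wfF_eq _ _ _ _
  have hGd : DfnF V V fun w : Fin 2 → ZFSet.{0} => G (w 0) (w 1) := by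
    refine DfnF.ite (Dfn.eq (DfnF.proj 0) (DfnF.const h0)) (DfnF.const h0) ?_
    refine hV.im' (h := fun k w => ap (w 1) k) (hV.sep' (Q := fun k w => ∃ i ∈ w 0,
      ¬ ap (w 1) i ∈ ap (w 1) (ZFSet.sUnion (w 0)) ∧ (∀ j ∈ i, ap (w 1) j ∈
        ap (w 1) (ZFSet.sUnion (w 0))) ∧ (k = i ∨ (i ∈ k ∧
        ap (w 1) k ∈ ap (w 1) (ZFSet.sUnion (w 0))))) (DfnF.proj 0) ?_)
      (hV.ap' (DfnF.proj 2) (DfnF.proj 0))
    refine hB.bex (Q := fun i w => ¬ ap (w 2) i ∈ ap (w 2) (ZFSet.sUnion (w 1)) ∧
      (∀ j ∈ i, ap (w 2) j ∈ ap (w 2) (ZFSet.sUnion (w 1))) ∧ (w 0 = i ∨ (i ∈ w 0 ∧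
        ap (w 2) (w 0) ∈ ap (w 2) (ZFSet.sUnion (w 1))))) (DfnF.proj 1) ?_
    refine (Dfn.not (Dfn.mem (hV.ap' (DfnF.proj 3) (DfnF.proj 0))
      (hV.ap' (DfnF.proj 3) (hB.sUnion' (DfnF.proj 2))))).and (Dfn.and ?_ ?_)
    · refine hB.ball (Q := fun j w => ap (w 3) j ∈ ap (w 3) (ZFSet.sUnion (w 2)))
        (DfnF.proj 0) ?_
      exact Dfn.mem (hV.ap' (DfnF.proj 4) (DfnF.proj 0))
        (hV.ap' (DfnF.proj 4) (hB.sUnion' (DfnF.proj 3)))
    · refine (Dfn.eq (DfnF.proj 1) (DfnF.proj 0)).or ((Dfn.mem (DfnF.proj 0)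
        (DfnF.proj 1)).and ?_)
      exact Dfn.mem (hV.ap' (DfnF.proj 3) (DfnF.proj 1))
        (hV.ap' (DfnF.proj 3) (hB.sUnion' (DfnF.proj 2)))
  have hFd := hV.memrec hGd hF
  have hval : ∀ n : ℕ, F (nat n) = hf n := by
    intro n
    induction n using Nat.strong_induction_on with
    | _ n ih =>
      cases n with
      | zero =>
        rw [hF, hf_zero]
        exact if_pos rfl
      | succ n =>
        have hap : ∀ j, j < n + 1 → ap (gr F (nat (n + 1))) (nat j) = hf j := by
          intro j hj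
          rw [ap_gr (mem_natK.2 ⟨j, hj, rfl⟩)]
          exact ih j hj
        rw [hF]
        show (if nat (n + 1) = ∅ then ∅ else _) = _
        rw [if_neg (nat_succ_ne n), sUnion_nat_succ, hap n (by omega)]
        ext y
        rw [mem_im, mem_hf]
        constructor
        · rintro ⟨k', hk, rfl⟩
          obtain ⟨hk1, i', hi, h1, h2, h3⟩ := ZFSet.mem_sep.1 hk
          obtain ⟨k, hk2, rfl⟩ := mem_natK.1 hk1
          obtain ⟨i, hi2, rfl⟩ := mem_natK.1 hi
          refine ⟨k, (tbs k n).2 ⟨i, ?_, fun j hj => ?_, ?_⟩, hap k hk2⟩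
          · rw [hap i hi2, hf_mem_hf] at h1
            simpa using h1
          · have h4 := h2 (nat j) (mem_natK.2 ⟨j, hj, rfl⟩)
            rwa [hap j (by omega), hf_mem_hf] at h4
          · rcases h3 with h3 | ⟨h3, h4⟩
            · exact Or.inl (nat_injective h3)
            · obtain ⟨i2, h5, h6⟩ := mem_natK.1 h3
              rw [← nat_injective h6] at h5
              rw [hap k hk2, hf_mem_hf] at h4
              exact Or.inr ⟨h5, h4⟩
        · rintro ⟨k, hk, rfl⟩
          have hk2 := lt_of_tb hk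
          obtain ⟨i, h1, h2, h3⟩ := (tbs k n).1 hk
          have hi2 : i < n + 1 := by
            rcases h3 with h3 | h3
            · omega
            · omega
          refine ⟨nat k, ZFSet.mem_sep.2 ⟨mem_natK.2 ⟨k, hk2, rfl⟩, nat i,
            mem_natK.2 ⟨i, hi2, rfl⟩, ?_, fun j' hj' => ?_, ?_⟩, (hap k hk2).symm⟩
          · rw [hap i hi2, hf_mem_hf, h1]
            simp
          · obtain ⟨j, hj, rfl⟩ := mem_natK.1 hj'
            rw [hap j (by omega), hf_mem_hf]
            exact h2 j hj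
          · rcases h3 with h3 | ⟨h3, h4⟩
            · exact Or.inl (by rw [h3])
            · refine Or.inr ⟨mem_natK.2 ⟨i, h3, rfl⟩, ?_⟩
              rw [hap k hk2, hf_mem_hf]
              exact h4
  have h1 : eg = im (fun z => pair z (F z)) ZFSet.omega := by
    ext x
    rw [mem_eg, mem_im]
    constructor
    · rintro ⟨n, rfl⟩
      exact ⟨nat n, nat_mem_om n, by rw [hval]⟩
    · rintro ⟨z, hz, rfl⟩
      obtain ⟨n, rfl⟩ := mem_omega_iff.1 hz
      exact ⟨n, by rw [hval]⟩
  rw [h1]
  exact hV.im_mem hV.infinity (hB.pair' (DfnF.proj 0) hFd)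

end Pool.Agent.H158_MS
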