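import Pool.Agent.H158_MS.Tre

/-!
# There is no perfect tree of generic reals of the same degree
-/

set_option autoImplicit false
set_option linter.unusedSectionVars false
set_option linter.unreachableTactic false
set_option linter.unusedTactic false

namespace Pool.Agent.H158_MS

open Pool.Agent.W868 Pool.Agent.W868.GM Pool.Agent.R597 Pool.Agent.Y588 Pool.Agent.H158_PC
open ZFSet (pair)

/-- Decided positively. -/
def dp (F w i : ZFSet.{0}) : Prop := ∃ p ∈ PP, pair w p ∈ LL ∧ pair p i ∈ F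

/-- Decided negatively. -/
def dm (F w i : ZFSet.{0}) : Prop := ∀ p ∈ PP, pair p i ∈ F → ¬ cM w p

theorem dp.mono {F w w' i : ZFSet.{0}} (h : dp F w i) (h' : pair w' w ∈ LL) : dp F w' i := by
  obtain ⟨p, hp, h1, h2⟩ := h
  exact ⟨p, hp, leT h' h1, h2⟩

theorem dm.mono {F w w' i : ZFSet.{0}} (h : dm F w i) (h' : pair w' w ∈ LL) : dm F w' i :=
  fun p hp h1 h2 => h p hp h1 (cM_le h2 h' (leR hp))

theorem lng {a b : ZFSet.{0}} (h : cM a b) : ∃ c, pair c a ∈ LL ∧ pair c b ∈ LL := by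
  rcases h with h | h
  · exact ⟨a, leR (le_PP h).1, h⟩
  · exact ⟨b, h, leR (le_PP h).1⟩

theorem hles {a b : ZFSet.{0}} (h : pair a b ∈ LL) {j : ℕ} (hj : nat j ∈ fs b) :
    nat j ∈ fs a ∧ (nat j ∈ sn a ↔ nat j ∈ sn b) := by
  obtain ⟨n, x, rfl⟩ := mem_PP.1 (le_PP h).1
  obtain ⟨m, y, rfl⟩ := mem_PP.1 (le_PP h).2
  obtain ⟨h1, h2⟩ := le_iff.1 h
  rw [cn, fs_pair, mem_natK] at hj
  obtain ⟨i, hi, h3⟩ := hj
  have h4 := nat_injective h3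
  subst h4
  rw [cn, cn, fs_pair, sn_pair, sn_pair, nat_mem_sb, nat_mem_sb, mem_natK]
  refine ⟨⟨_, lt_of_lt_of_le hi h1, rfl⟩, ?_⟩
  have h5 := h2 _ hi
  have h6 := lt_of_lt_of_le hi h1
  tauto

theorem incomp {a b : ZFSet.{0}} (ha : a ∈ PP) (hb : b ∈ PP) (h : ¬ cM a b) :
    ∃ j : ℕ, nat j ∈ fs a ∧ nat j ∈ fs b ∧ ¬ (nat j ∈ sn a ↔ nat j ∈ sn b) := by
  obtain ⟨n, x, rfl⟩ := mem_PP.1 ha
  obtain ⟨m, y, rfl⟩ := mem_PP.1 hb
  by_contra hcon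
  have h1 : ∀ j, j < n → j < m → (j ∈ x ↔ j ∈ y) := by
    intro j h1 h2
    by_contra h3
    refine hcon ⟨j, ?_, ?_, ?_⟩
    · rw [cn, fs_pair]
      exact mem_natK.2 ⟨j, h1, rfl⟩
    · rw [cn, fs_pair]
      exact mem_natK.2 ⟨j, h2, rfl⟩
    · rw [cn, cn, sn_pair, sn_pair, nat_mem_sb, nat_mem_sb]
      tauto
  apply h
  rcases le_total n m with h2 | h2
  · exact Or.inr (le_iff.2 ⟨h2, fun i hi => (h1 i hi (lt_of_lt_of_le hi h2)).symm⟩)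
  · exact Or.inl (le_iff.2 ⟨h2, fun i hi => h1 i (lt_of_lt_of_le hi h2) hi⟩)

section
variable {V : Set ZFSet.{0}} (hV : IsZF V) (he : eg ∈ V) {n : ℕ} {F : ZFSet.{0}} (hF : F ∈ V)
  {G H : (Fin n → ZFSet.{0}) → ZFSet.{0}}

include hV he hF

theorem ddp (hG : DfnF V V G) (hH : DfnF V V H) : Dfn V V fun v => dp F (G v) (H v) := by
  refine hV.base.bex (Q := fun p v => pair (G v) p ∈ LL ∧ pair p (H v) ∈ F)
    (DfnF.const (PP_mem hV he)) ?_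
  exact (dLe hV he hG.tail (DfnF.proj 0)).and
    (Dfn.mem (hV.base.pair' (DfnF.proj 0) hH.tail) (DfnF.const hF))

theorem ddm (hG : DfnF V V G) (hH : DfnF V V H) : Dfn V V fun v => dm F (G v) (H v) := by
  refine hV.base.ball (Q := fun p v => pair p (H v) ∈ F → ¬ cM (G v) p)
    (DfnF.const (PP_mem hV he)) ?_
  exact (Dfn.mem (hV.base.pair' (DfnF.proj 0) hH.tail) (DfnF.const hF)).imp
    (Dfn.not (dcM hV he hG.tail (DfnF.proj 0)))

end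

theorem no_tree {V : Set ZFSet.{0}} (hL : Gd V) (hc : V.Countable) {g : Set ℕ} (hg : Gn V g)
    {T : ZFSet.{0}} (hT : T ∈ ext V (Gf g)) (hTP : T ⊆ PP) (hroot : cn 0 ∅ ∈ T)
    (hcl : ∀ a ∈ T, ∀ b, pair a b ∈ LL → b ∈ T)
    (hsp : ∀ w ∈ T, ∃ w1 ∈ T, ∃ w2 ∈ T, pair w1 w ∈ LL ∧ pair w2 w ∈ LL ∧ ¬ cM w1 w2) :
    ∃ x, nm x ∈ ext V (Gf g) ∧ (∀ n, cn n x ∈ T) ∧ ¬ (Gn V x ∧ nm g ∈ ext V (Gf x)) := by
  by_contra hcon0
  have hbr : ∀ x, nm x ∈ ext V (Gf g) → (∀ n, cn n x ∈ T) → Gn V x ∧ nm g ∈ ext V (Gf x) := by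
    intro x h1 h2
    by_contra h3
    exact hcon0 ⟨x, h1, h2, h3⟩
  have hV := hL.zf
  have hB := hV.base
  have he := hL.eg
  have hPP := PP_mem hV he
  have hLL := LL_mem hV he
  have hω := hV.infinity
  have hP := forcing_PP hV he
  have hG := gen_of_Gn hg
  have hM := ZE.zf_ext hV hP hG
  have hVM := ZE.sub_ext' hV hP hG
  have hGM : Gf g ∈ ext V (Gf g) := gen_mem_ext hV hP hG
  obtain ⟨Tt, N, hTT, hTg⟩ := exists_TT hL hc hg hT hTP hroot hcl hsp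
    fun x h1 h2 => (hbr x h1 h2).1
  obtain ⟨X, hX, hXT, hXc, hXt, hXn⟩ := hTT.sys hL
  have hXp : ∀ u ∈ X, fs u ∈ PP ∧ sn u ∈ PP ∧ pair (fs u) (sn u) ∈ Tt := by
    intro u hu
    have h1 := hXT hu
    rw [hTT.isp h1] at h1
    exact ⟨(hTT.PPs h1).1, (hTT.PPs h1).2, h1⟩
  set x : Set ℕ := {i | ∃ u ∈ X, fs u ∈ Gf g ∧ nat i ∈ sn (sn u)} with hxd
  have hGc : ∀ a ∈ Gf g, ∀ b ∈ Gf g, cM a b := by
    intro a ha b hb
    obtain ⟨n, rfl⟩ := mem_Gf.1 ha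
    obtain ⟨m, rfl⟩ := mem_Gf.1 hb
    rcases le_total n m with h | h
    · exact Or.inr (leg g h)
    · exact Or.inl (leg g h)
  have hXx : ∀ u ∈ X, fs u ∈ Gf g → sn u = cn (ln (sn u)) x := by
    intro u hu hug
    obtain ⟨l, b, hlb⟩ := mem_PP.1 (hXp u hu).2.1
    rw [hlb, ln_cn]
    refine cn_congr fun i hi => ?_
    constructor
    · intro hib
      refine ⟨u, hu, hug, ?_⟩
      rw [hlb, cn, sn_pair]
      exact nat_mem_sb.2 ⟨hi, hib⟩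
    · rintro ⟨u', hu', hug', h1⟩
      have h2 := hXc u hu u' hu' (hGc _ hug _ hug')
      obtain ⟨l', b', hlb'⟩ := mem_PP.1 (hXp u' hu').2.1
      rw [hlb', cn, sn_pair, nat_mem_sb] at h1
      rw [hlb, hlb'] at h2
      rcases h2 with h2 | h2
      · exact ((le_iff.1 h2).2 i h1.1).2 h1.2
      · exact ((le_iff.1 h2).2 i hi).1 h1.2
  have hXl : ∀ n : ℕ, ∃ u ∈ X, fs u ∈ Gf g ∧ n ≤ ln (sn u) := by
    intro n
    by_contra hcon
    have hnV := hV.nat_mem n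
    have hBV : ZFSet.sep (fun a => ∃ u ∈ X, pair a (fs u) ∈ LL ∧ nat n ⊆ fs (sn u)) PP ∈ V := by
      refine hV.sep_mem (Q := fun a => ∃ u ∈ X, pair a (fs u) ∈ LL ∧ nat n ⊆ fs (sn u)) ?_ hPP
      (repeat' first
        | assumption
        | exact DfnF.proj _
        | exact DfnF.const (by assumption)
        | apply Dfn.not | apply Dfn.and | apply Dfn.or | apply Dfn.imp
        | apply hB.bex | apply hB.subset' | apply hB.ball | apply hV.fs' | apply hV.sn'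
        | apply Dfn.eq | apply Dfn.mem | apply hB.pair')
    obtain ⟨m, hm⟩ := bad hL hg hBV (by
      intro k hk
      obtain ⟨-, u, hu, h1, h2⟩ := ZFSet.mem_sep.1 hk
      obtain ⟨j, hj⟩ := of_leg h1
      rw [fs_PP (hXp u hu).2.1, nat_sub] at h2
      exact hcon ⟨u, hu, mem_Gf.2 ⟨j, hj⟩, h2⟩)
    obtain ⟨u, hu, h1, h2⟩ := hXt (cn (max m N) g) n (leg g (le_max_right _ _))
    refine hm (fs u) (leT h1 (leg g (le_max_left _ _))) (ZFSet.mem_sep.2 ⟨(hXp u hu).1, u, hu,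
      leR (hXp u hu).1, ?_⟩)
    rw [fs_PP (hXp u hu).2.1, nat_sub]
    exact h2
  have hxT : ∀ n, cn n x ∈ T := by
    intro n
    obtain ⟨u, hu, hug, h2⟩ := hXl n
    have h3 := hXx u hu hug
    obtain ⟨j, hj⟩ := mem_Gf.1 hug
    have h4 := (hXp u hu).2.2
    rw [hj] at h4
    have h5 := hTg j _ h4
    rw [h3] at h5
    exact hcl _ h5 _ (leg x h2)
  have hxM : nm x ∈ ext V (Gf g) := by
    have h1 : nm x = ZFSet.sep (fun i => ∃ u ∈ X, fs u ∈ Gf g ∧ i ∈ sn (sn u)) ZFSet.omega := by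
      ext z
      rw [mem_nm, ZFSet.mem_sep]
      constructor
      · rintro ⟨i, hi, rfl⟩
        exact ⟨nat_mem_om i, hi⟩
      · rintro ⟨hz, h2⟩
        obtain ⟨i, rfl⟩ := mem_omega_iff.1 hz
        exact ⟨i, h2, rfl⟩
    rw [h1]
    refine hM.sep_mem (Q := fun i => ∃ u ∈ X, fs u ∈ Gf g ∧ i ∈ sn (sn u)) ?_ hM.infinity
    refine hM.base.bex (Q := fun u w => fs u ∈ Gf g ∧ w 0 ∈ sn (sn u)) (DfnF.const (hVM hX)) ?_
    exact (Dfn.mem (hM.fs' (DfnF.proj 0)) (DfnF.const hGM)).and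
      (Dfn.mem (DfnF.proj 1) (hM.sn' (hM.sn' (DfnF.proj 0))))
  obtain ⟨hxG, τ, hτ, hτe⟩ := hbr x hxM hxT
  obtain ⟨F, hF, hFr⟩ := rel hL hc hτ
  have hFg : ∀ i : ℕ, i ∈ g ↔ ∃ n : ℕ, pair (cn n x) (nat i) ∈ F := by
    intro i
    rw [← hFr x hxG (nat i) (isHF_nat i), hτe, nat_mem_nm]
  have hd1 : ∀ i n : ℕ, dp F (cn n x) (nat i) → i ∈ g := by
    rintro i n ⟨p, hp, h1, h2⟩
    obtain ⟨m, rfl⟩ := of_leg h1
    exact (hFg i).2 ⟨m, h2⟩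
  have hd0 : ∀ i n : ℕ, dm F (cn n x) (nat i) → i ∉ g := by
    intro i n h hi
    obtain ⟨m, hm⟩ := (hFg i).1 hi
    refine h _ (cn_mem_PP _ _) hm ?_
    rcases le_total n m with h1 | h1
    · exact Or.inr (leg x h1)
    · exact Or.inl (leg x h1)
  have hdd : ∀ i : ℕ, ∃ n : ℕ, dp F (cn n x) (nat i) ∨ dm F (cn n x) (nat i) := by
    intro i
    by_contra hcon
    push Not at hcon
    have hiV := hV.nat_mem i
    obtain ⟨m, hm⟩ := bad hL hxG (hV.sep_mem (Q := fun w => dp F w (nat i))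
      (ddp hV he hF (DfnF.proj 0) (DfnF.const hiV)) hPP) (by
        intro n hn
        exact (hcon n).1 (ZFSet.mem_sep.1 hn).2)
    refine (hcon m).2 fun p hp hpF hcm => ?_
    rcases hcm with h | h
    · exact hm _ (leR (cn_mem_PP _ _)) (ZFSet.mem_sep.2 ⟨cn_mem_PP _ _, p, hp, h, hpF⟩)
    · exact hm p h (ZFSet.mem_sep.2 ⟨hp, p, hp, leR hp, hpF⟩)
  -- wrong conditions
  have hE1 : ZFSet.sep (fun a => ∃ u ∈ X, pair a (fs u) ∈ LL ∧ ∃ i ∈ fs a,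
      (dp F (sn u) i ∧ ¬ i ∈ sn a) ∨ (dm F (sn u) i ∧ i ∈ sn a)) PP ∈ V := by
    refine hV.sep_mem (Q := fun a => ∃ u ∈ X, pair a (fs u) ∈ LL ∧ ∃ i ∈ fs a,
      (dp F (sn u) i ∧ ¬ i ∈ sn a) ∨ (dm F (sn u) i ∧ i ∈ sn a)) ?_ hPP
    (repeat' first
      | assumption
      | exact DfnF.proj _
      | exact DfnF.const (by assumption)
      | apply ddp hV he hF | apply ddm hV he hF
      | apply Dfn.not | apply Dfn.and | apply Dfn.or | apply Dfn.imp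
      | apply hB.bex | apply hB.subset' | apply hB.ball | apply hV.fs' | apply hV.sn'
      | apply Dfn.eq | apply Dfn.mem | apply hB.pair')
  obtain ⟨m1, hm1⟩ := bad hL hg hE1 (by
    intro k hk
    obtain ⟨-, u, hu, h1, i, hi, h2⟩ := ZFSet.mem_sep.1 hk
    obtain ⟨j, hj⟩ := of_leg h1
    have h3 := hXx u hu (mem_Gf.2 ⟨j, hj⟩)
    rw [cn, fs_pair, mem_natK] at hi
    obtain ⟨i, hik, rfl⟩ := hi
    have h6 : nat i ∈ sn (cn k g) ↔ i < k ∧ i ∈ g := by rw [cn, sn_pair, nat_mem_sb]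
    rw [h3, h6] at h2
    rcases h2 with ⟨h4, h5⟩ | ⟨h4, h5⟩
    · exact h5 ⟨hik, hd1 _ _ h4⟩
    · exact hd0 _ _ h4 h5.2)
  have hE2 : ZFSet.sep (fun a => ∃ i ∈ ZFSet.omega, ∀ u ∈ X, cM (fs u) a →
      ¬ (dp F (sn u) i ∨ dm F (sn u) i)) PP ∈ V := by
    refine hV.sep_mem (Q := fun a => ∃ i ∈ ZFSet.omega, ∀ u ∈ X, cM (fs u) a →
      ¬ (dp F (sn u) i ∨ dm F (sn u) i)) ?_ hPP
    (repeat' first
      | assumption
      | exact DfnF.proj _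
      | exact DfnF.const (by assumption)
      | apply ddp hV he hF | apply ddm hV he hF | apply dcM hV he
      | apply Dfn.not | apply Dfn.and | apply Dfn.or | apply Dfn.imp
      | apply hB.bex | apply hB.subset' | apply hB.ball | apply hV.fs' | apply hV.sn'
      | apply Dfn.eq | apply Dfn.mem | apply hB.pair')
  obtain ⟨m2, hm2⟩ := bad hL hg hE2 (by
    intro k hk
    obtain ⟨-, i, hi, h1⟩ := ZFSet.mem_sep.1 hk
    obtain ⟨j, rfl⟩ := mem_omega_iff.1 hi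
    obtain ⟨n, hn⟩ := hdd j
    obtain ⟨u, hu, hug, h2⟩ := hXl n
    refine h1 u hu (hGc _ hug _ (mem_Gf.2 ⟨k, rfl⟩)) ?_
    rw [hXx u hu hug]
    exact hn.imp (fun h => h.mono (leg x h2)) fun h => h.mono (leg x h2))
  have hle0 : pair (cn (max N (max m1 m2)) g) (cn N g) ∈ LL := leg g (le_max_left _ _)
  have hle1 : pair (cn (max N (max m1 m2)) g) (cn m1 g) ∈ LL :=
    leg g (le_trans (le_max_left _ _) (le_max_right _ _))
  have hle2 : pair (cn (max N (max m1 m2)) g) (cn m2 g) ∈ LL :=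
    leg g (le_trans (le_max_right _ _) (le_max_right _ _))
  obtain ⟨s0, s1, w, hs0, hs1, hinc, hw, hr0, hr1⟩ := hXn _ hle0
  have key : ∀ (s0 s1 : ZFSet.{0}) (j : ℕ), pair s0 (cn (max N (max m1 m2)) g) ∈ LL →
      pair s1 (cn (max N (max m1 m2)) g) ∈ LL → (∀ v, pair v w ∈ LL → rch X s0 v) →
      (∀ v, pair v w ∈ LL → rch X s1 v) → nat j ∈ fs s0 → nat j ∈ fs s1 → nat j ∈ sn s0 →
      ¬ nat j ∈ sn s1 → False := by
    intro s0 s1 j hs0 hs1 hr0 hr1 hj0 hj1 hj hn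
    obtain ⟨u, hu, hu1, hu2⟩ := hr0 w (leR hw)
    have h1 : ∃ u' ∈ X, cM (fs u') (fs u) ∧ (dp F (sn u') (nat j) ∨ dm F (sn u') (nat j)) := by
      by_contra hcon
      exact hm2 (fs u) (leT hu1 (leT hs0 hle2)) (ZFSet.mem_sep.2 ⟨(hXp u hu).1, nat j,
        nat_mem_om j, fun u' hu' h1 h2 => hcon ⟨u', hu', h1, h2⟩⟩)
    obtain ⟨u', hu', hc', hdec⟩ := h1
    obtain ⟨a', ha1, ha2⟩ := lng hc'
    obtain ⟨v, hv1, hv2⟩ := lng (hXc u' hu' u hu hc')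
    obtain ⟨h3, h4⟩ := hles (leT ha2 hu1) hj0
    rcases hdec with hdec | hdec
    · obtain ⟨u'', hu'', h5, h6⟩ := hr1 v (leT hv2 hu2)
      obtain ⟨h8, h9⟩ := hles h5 hj1
      exact hm1 (fs u'') (leT h5 (leT hs1 hle1)) (ZFSet.mem_sep.2 ⟨(hXp u'' hu'').1, u'', hu'',
        leR (hXp u'' hu'').1, nat j, h8, Or.inl ⟨hdec.mono (leT h6 hv1), fun h => hn (h9.1 h)⟩⟩)
    · exact hm1 a' (leT ha2 (leT hu1 (leT hs0 hle1))) (ZFSet.mem_sep.2 ⟨(le_PP ha1).1, u', hu',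
        ha1, nat j, h3, Or.inr ⟨hdec, h4.2 hj⟩⟩)
  obtain ⟨j, hj0, hj1, hj⟩ := incomp (le_PP hs0).1 (le_PP hs1).1 hinc
  by_cases h : nat j ∈ sn s0
  · by_cases h' : nat j ∈ sn s1
    · exact hj ⟨fun _ => h', fun _ => h⟩
    · exact key s0 s1 j hs0 hs1 hr0 hr1 hj0 hj1 h h'
  · by_cases h' : nat j ∈ sn s1
    · exact key s1 s0 j hs1 hs0 hr1 hr0 hj1 hj0 h' h
    · exact hj ⟨fun h1 => absurd h1 h, fun h1 => absurd h1 h'⟩

end Pool.Agent.H158_MS
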