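import Pool.Agent.H158_MS.Egm
import Pool.Agent.H158_PC.Gnd

/-!
# The set of generic reals of maximal degree is definable from parameters in the ground model
-/

set_option autoImplicit false
set_option linter.unusedSectionVars false
set_option linter.unreachableTactic false
set_option linter.unusedTactic false

namespace Pool.Agent.H158_MS

open Pool.Agent.W868 Pool.Agent.W868.GM Pool.Agent.R597 Pool.Agent.Y588 Pool.Agent.H158_PC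
open ZFSet (pair)

theorem gd_of {V : Set ZFSet.{0}} (hL : IsLA ∅ V) : Gd V where
  zf := hL.zf
  eg := eg_mem hL.zf
  gc := ⟨_, hL.gc⟩

/-- An initial segment. -/
def seg (d z : ZFSet.{0}) : Prop :=
  ∃ n ∈ ZFSet.omega, ∃ s ∈ HFs, d = pair n s ∧ ∀ j ∈ n, (j ∈ s ↔ j ∈ z)

theorem seg_iff {d : ZFSet.{0}} (hd : d ∈ PP) {x : Set ℕ} : seg d (nm x) ↔ ∃ n, d = cn n x := by
  constructor
  · rintro ⟨n, hn, s, hs, h1, h2⟩
    obtain ⟨m, b, rfl⟩ := mem_PP.1 hd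
    rw [cn] at h1
    obtain ⟨rfl, rfl⟩ := ZFSet.pair_inj.1 h1
    refine ⟨m, cn_congr fun i hi => ?_⟩
    have h3 := h2 (nat i) (mem_natK.2 ⟨i, hi, rfl⟩)
    rw [nat_mem_sb, nat_mem_nm] at h3
    tauto
  · rintro ⟨n, rfl⟩
    refine ⟨nat n, nat_mem_om n, sb x n, mem_HFs.2 (isHF_sb x n), rfl, fun j hj => ?_⟩
    obtain ⟨i, hi, rfl⟩ := mem_natK.1 hj
    rw [nat_mem_sb, nat_mem_nm]
    tauto

/-- The defining property. -/
def RR (M : Set ZFSet.{0}) (Y Y' z : ZFSet.{0}) : Prop :=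
  (∀ i ∈ z, i ∈ ZFSet.omega) ∧
    (∀ D ∈ Y, (∀ p ∈ PP, ∃ q ∈ D, pair q p ∈ LL) → ∃ d ∈ D, seg d z) ∧
    ∀ y ∈ M, (∀ i ∈ y, i ∈ ZFSet.omega) → ∃ F ∈ Y', ∀ i ∈ ZFSet.omega,
      (i ∈ y ↔ ∃ p ∈ PP, pair p i ∈ F ∧ seg p z)

theorem dRR {V M : Set ZFSet.{0}} (hB : IsBase M) (hVM : V ⊆ M) {Y Y' : ZFSet.{0}} (hY : Y ∈ V)
    (hY' : Y' ∈ V) (hP : PP ∈ V) (hLL : LL ∈ V) (hH : HFs ∈ V) (hω : ZFSet.omega ∈ V) :
    Dfn V M fun w : Fin 1 → ZFSet.{0} => RR M Y Y' (w 0) := by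
  have hYM := hVM hY
  have hYM' := hVM hY'
  have hPM := hVM hP
  have hLM := hVM hLL
  have hHM := hVM hH
  have hωM := hVM hω
  unfold RR seg
  (repeat' first
    | assumption
    | exact DfnF.proj _
    | exact DfnF.const' (by assumption) (by assumption)
    | apply Dfn.not | apply Dfn.and | apply Dfn.or | apply Dfn.imp | apply Dfn.iff
    | apply hB.bex | apply hB.ball | apply Dfn.ex | apply Dfn.all
    | apply Dfn.eq | apply Dfn.mem | apply hB.pair')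

/-- The set `x` is Cohen generic over `V` and has the same degree as `g`. -/
def Sd (V : Set ZFSet.{0}) (g x : Set ℕ) : Prop :=
  nm x ∈ ext V (Gf g) ∧ Gn V x ∧ nm g ∈ ext V (Gf x)

theorem Gf_memK {K : Set ZFSet.{0}} (hK : IsZF K) (he : eg ∈ K) {g : Set ℕ} (hg : nm g ∈ K) :
    Gf g ∈ K := by
  have h1 : Gf g = ZFSet.sep (fun a => ∀ j ∈ fs a, (j ∈ sn a ↔ j ∈ nm g)) PP := by
    ext a
    rw [ZFSet.mem_sep]
    constructor
    · intro h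
      obtain ⟨n, rfl⟩ := mem_Gf.1 h
      refine ⟨cn_mem_PP _ _, fun j hj => ?_⟩
      rw [cn, fs_pair] at hj
      obtain ⟨i, hi, rfl⟩ := mem_natK.1 hj
      rw [cn, sn_pair, nat_mem_sb, nat_mem_nm]
      tauto
    · rintro ⟨ha, h⟩
      obtain ⟨n, b, rfl⟩ := mem_PP.1 ha
      refine cn_mem_Gf.2 fun i hi => ?_
      have h2 := h (nat i) (by rw [cn, fs_pair]; exact mem_natK.2 ⟨i, hi, rfl⟩)
      rw [cn, sn_pair, nat_mem_sb, nat_mem_nm] at h2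
      tauto
  rw [h1]
  refine hK.sep_mem (Q := fun a => ∀ j ∈ fs a, (j ∈ sn a ↔ j ∈ nm g)) ?_ (PP_mem hK he)
  refine hK.base.ball (Q := fun j w => (j ∈ sn (w 0) ↔ j ∈ nm g)) (hK.fs' (DfnF.proj 0)) ?_
  exact (Dfn.mem (DfnF.proj 0) (hK.sn' (DfnF.proj 1))).iff
    (Dfn.mem (DfnF.proj 0) (DfnF.const hg))

theorem nm_memK {K : Set ZFSet.{0}} (hK : IsZF K) {g : Set ℕ} (hg : Gf g ∈ K) : nm g ∈ K := by
  have h1 : nm g = ZFSet.sep (fun i => ∃ p ∈ Gf g, i ∈ sn p) ZFSet.omega := by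
    ext z
    rw [mem_nm, ZFSet.mem_sep]
    constructor
    · rintro ⟨i, hi, rfl⟩
      refine ⟨nat_mem_om i, cn (i + 1) g, mem_Gf.2 ⟨_, rfl⟩, ?_⟩
      rw [cn, sn_pair, nat_mem_sb]
      exact ⟨Nat.lt_succ_self i, hi⟩
    · rintro ⟨-, p, hp, h⟩
      obtain ⟨n, rfl⟩ := mem_Gf.1 hp
      rw [cn, sn_pair, mem_sb] at h
      obtain ⟨i, -, hi, rfl⟩ := h
      exact ⟨i, hi, rfl⟩
  rw [h1]
  refine hK.sep_mem (Q := fun i => ∃ p ∈ Gf g, i ∈ sn p) ?_ hK.infinity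
  refine hK.base.bex (Q := fun p w => w 0 ∈ sn p) (DfnF.const hg) ?_
  exact Dfn.mem (DfnF.proj 1) (hK.sn' (DfnF.proj 0))

section
variable {V : Set ZFSet.{0}} (hL : Gd V) {g : Set ℕ} (hg : Gn V g)

include hL hg

theorem zfE : IsZF (ext V (Gf g)) :=
  ZE.zf_ext hL.zf (forcing_PP hL.zf hL.eg) (gen_of_Gn hg)

theorem V_subE : V ⊆ ext V (Gf g) :=
  ZE.sub_ext' hL.zf (forcing_PP hL.zf hL.eg) (gen_of_Gn hg)

theorem Gf_memE : Gf g ∈ ext V (Gf g) :=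
  gen_mem_ext hL.zf (forcing_PP hL.zf hL.eg) (gen_of_Gn hg)

theorem nm_memE : nm g ∈ ext V (Gf g) := nm_memK (zfE hL hg) (Gf_memE hL hg)

theorem Sd_self : Sd V g g := ⟨nm_memE hL hg, hg, nm_memE hL hg⟩

/-- Generic reals are not in the ground model. -/
theorem not_memV : nm g ∉ V := by
  intro h
  have hV := hL.zf
  have he := hL.eg
  have hP := PP_mem hV he
  have hGV := Gf_memK hV he h
  have hD : ZFSet.sep (fun a => ¬ a ∈ Gf g) PP ∈ V :=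
    hV.sep_mem (Q := fun a => ¬ a ∈ Gf g) (Dfn.not (Dfn.mem (DfnF.proj 0) (DfnF.const hGV))) hP
  obtain ⟨n, hn⟩ := hg _ hD (fun x hx => (ZFSet.mem_sep.1 hx).1) (by
    intro p hp
    obtain ⟨n, b, rfl⟩ := mem_PP.1 hp
    refine ⟨cn (n + 1) {i | (i < n ∧ i ∈ b) ∨ (i = n ∧ n ∉ g)}, ZFSet.mem_sep.2
      ⟨cn_mem_PP _ _, fun h1 => ?_⟩, le_iff.2 ⟨Nat.le_succ n, fun i hi => ?_⟩⟩
    · have h2 := cn_mem_Gf.1 h1 n (Nat.lt_succ_self n)
      have h3 : n ∈ ({i | (i < n ∧ i ∈ b) ∨ (i = n ∧ n ∉ g)} : Set ℕ) ↔ n ∉ g := by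
        constructor
        · rintro (h3 | h3)
          · exact absurd h3.1 (lt_irrefl n)
          · exact h3.2
        · exact fun h3 => Or.inr ⟨rfl, h3⟩
      tauto
    · constructor
      · rintro (h3 | h3)
        · exact h3.2
        · omega
      · exact fun h3 => Or.inl ⟨hi, h3⟩)
  exact (ZFSet.mem_sep.1 hn).2 (mem_Gf.2 ⟨n, rfl⟩)

/-- The definition of the set. -/
theorem Sd_iff (hc : V.Countable) {Y Y' : ZFSet.{0}} (hY : ∀ z, z ∈ Y ↔ z ∈ V ∧ z ⊆ PP)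
    (hY' : ∀ z, z ∈ Y' ↔ z ∈ V ∧ z ⊆ ZFSet.prod PP ZFSet.omega) {z : ZFSet.{0}}
    (hz : z ∈ ext V (Gf g)) : RR (ext V (Gf g)) Y Y' z ↔ ∃ x, Sd V g x ∧ z = nm x := by
  have hV := hL.zf
  have he := hL.eg
  have hP := PP_mem hV he
  have hM := zfE hL hg
  constructor
  · rintro ⟨h1, h2, h3⟩
    have hzx : z = nm (st z) := (nm_st fun i hi => h1 i hi).symm
    have hG : Gn V (st z) := by
      intro D hD hDP hd
      obtain ⟨d, hd1, hd2⟩ := h2 D ((hY D).2 ⟨hD, hDP⟩) hd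
      rw [hzx] at hd2
      obtain ⟨n, hn⟩ := (seg_iff (hDP hd1)).1 hd2
      exact ⟨n, hn ▸ hd1⟩
    refine ⟨st z, ⟨hzx ▸ hz, hG, ?_⟩, hzx⟩
    obtain ⟨F, hF, h4⟩ := h3 (nm g) (nm_memE hL hg) fun i hi => nm_sub_om g hi
    have hK := zfE hL hG
    have h5 : nm g = ZFSet.sep (fun i => ∃ p ∈ Gf (st z), pair p i ∈ F) ZFSet.omega := by
      ext i
      rw [ZFSet.mem_sep]
      constructor
      · intro hi
        have hi' := nm_sub_om g hi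
        obtain ⟨p, hp, h6, h7⟩ := (h4 i hi').1 hi
        rw [hzx] at h7
        obtain ⟨n, rfl⟩ := (seg_iff hp).1 h7
        exact ⟨hi', _, mem_Gf.2 ⟨n, rfl⟩, h6⟩
      · rintro ⟨hi, p, hp, h6⟩
        obtain ⟨n, rfl⟩ := mem_Gf.1 hp
        refine (h4 i hi).2 ⟨_, cn_mem_PP _ _, h6, ?_⟩
        rw [hzx]
        exact (seg_iff (cn_mem_PP _ _)).2 ⟨n, by rw [st_nm]⟩
    rw [h5]
    refine hK.sep_mem (Q := fun i => ∃ p ∈ Gf (st z), pair p i ∈ F) ?_ hK.infinity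
    refine hK.base.bex (Q := fun p w => pair p (w 0) ∈ F) (DfnF.const (Gf_memE hL hG)) ?_
    exact Dfn.mem (hK.base.pair' (DfnF.proj 0) (DfnF.proj 1))
      (DfnF.const (V_subE hL hG ((hY' F).1 hF).1))
  · rintro ⟨x, ⟨h1, h2, h3⟩, rfl⟩
    refine ⟨fun i hi => nm_sub_om x hi, fun D hD hd => ?_, fun y hy hyω => ?_⟩
    · obtain ⟨hDV, hDP⟩ := (hY D).1 hD
      obtain ⟨n, hn⟩ := h2 D hDV hDP hd
      exact ⟨_, hn, (seg_iff (cn_mem_PP _ _)).2 ⟨n, rfl⟩⟩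
    · have hK := zfE hL h2
      have hVK := V_subE hL h2
      have hgK := Gf_memK hK (hVK he) h3
      have hyK : y ∈ ext V (Gf x) := by
        obtain ⟨τ, hτ, rfl⟩ := hy
        exact ev_mem hK hgK (hVK hτ)
      obtain ⟨τ, hτ, hτe⟩ := hyK
      obtain ⟨F, hF, hFr⟩ := rel hL hc hτ
      have hF' : ZFSet.sep (fun u => u ∈ F) (ZFSet.prod PP ZFSet.omega) ∈ V :=
        hV.sep_mem (Q := fun u => u ∈ F) (Dfn.mem (DfnF.proj 0) (DfnF.const hF))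
          (hV.prod_mem hP hV.infinity)
      refine ⟨_, (hY' _).2 ⟨hF', fun u hu => (ZFSet.mem_sep.1 hu).1⟩, fun i hi => ?_⟩
      obtain ⟨j, rfl⟩ := mem_omega_iff.1 hi
      rw [← hτe, hFr x h2 (nat j) (isHF_nat j)]
      constructor
      · rintro ⟨n, hn⟩
        exact ⟨_, cn_mem_PP n x, ZFSet.mem_sep.2 ⟨ZFSet.pair_mem_prod.2 ⟨cn_mem_PP n x, hi⟩,
          hn⟩, (seg_iff (cn_mem_PP _ _)).2 ⟨n, rfl⟩⟩
      · rintro ⟨p, hp, h4, h5⟩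
        obtain ⟨n, rfl⟩ := (seg_iff hp).1 h5
        exact ⟨n, (ZFSet.mem_sep.1 h4).2⟩

/-- The set is definable from parameters in the ground model. -/
theorem Sd_dfn (hc : V.Countable) :
    Dfn V (ext V (Gf g)) fun w : Fin 1 → ZFSet.{0} => ∃ x, Sd V g x ∧ w 0 = nm x := by
  have hV := hL.zf
  have he := hL.eg
  have hP := PP_mem hV he
  obtain ⟨Y, hY, hYm⟩ := hV.power PP hP
  obtain ⟨Y', hY', hYm'⟩ := hV.power _ (hV.prod_mem hP hV.infinity)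
  have h1 := dRR (V := V) (zfE hL hg).base (V_subE hL hg) hY hY' hP (LL_mem hV he)
    (HFs_mem hV he) hV.infinity
  exact h1.congr fun v hv => Sd_iff hL hg hc hYm hYm' (hv 0)

end

/-- The ground model is the constructible universe of the extension. -/
theorem LC_ext {V : Set ZFSet.{0}} (hL : IsLA ∅ V) {g : Set ℕ} (hg : Gn V g) :
    LC (ext V (Gf g)) ∅ = V := by
  have hM := zfE (gd_of hL) hg
  apply Set.Subset.antisymm
  · rintro x ⟨ξ, h1, h2, h3⟩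
    have h4 := ord_of_ext hL.zf h1 h2
    exact hL.zf.trans _ (Lv_mem_M hL.zf hL.mem h4) _ h3
  · intro x hx
    obtain ⟨ξ, h1, h2, h3⟩ := hL.lev x hx
    exact ⟨ξ, V_subE (gd_of hL) hg h1, h2, h3⟩

/-- There are countable transitive models of `V = L`. -/
theorem exists_L : ∃ V : Set ZFSet.{0}, V.Countable ∧ IsLA ∅ V ∧ ∃ g, Gn V g := by
  obtain ⟨W, hc, hL, -⟩ := exists_ground
  have h0 := hL.zf.empty_mem
  have hV := isLA_of_HF hL.zf h0 fun z hz => absurd hz (ZFSet.notMem_empty z)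
  have hsub : LC W ∅ ⊆ W := LC_subset hL.zf h0
  have hcV := hc.mono hsub
  refine ⟨LC W ∅, hcV, hV, ?_⟩
  have he := eg_mem hV.zf
  obtain ⟨G, hG, -⟩ := exists_gen hcV (forcing_PP hV.zf he) (cn_mem_PP 0 ∅)
  obtain ⟨g, -, hg⟩ := Gn_of_gen hV.zf he hG
  exact ⟨g, hg⟩

/-- A perfect tree of finite sequences of zeros and ones. -/
def PTree (T : ZFSet.{0}) : Prop :=
  T ⊆ PP ∧ cn 0 ∅ ∈ T ∧ (∀ a ∈ T, ∀ b, pair a b ∈ LL → b ∈ T) ∧
    ∀ w ∈ T, ∃ w1 ∈ T, ∃ w2 ∈ T, pair w1 w ∈ LL ∧ pair w2 w ∈ LL ∧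
      pair w1 w2 ∉ LL ∧ pair w2 w1 ∉ LL

/-- The main theorem. -/
theorem main {V : Set ZFSet.{0}} (hc : V.Countable) (hL : IsLA ∅ V) {g : Set ℕ} (hg : Gn V g) :
    ¬ ∃ T ∈ ext V (Gf g), PTree T ∧
      ∀ x, nm x ∈ ext V (Gf g) → (∀ n, cn n x ∈ T) → Sd V g x := by
  rintro ⟨T, hT, ⟨h1, h2, h3, h4⟩, h5⟩
  obtain ⟨x, h6, h7, h8⟩ := no_tree (gd_of hL) hc hg hT h1 h2 h3 (by
    intro w hw
    obtain ⟨w1, hw1, w2, hw2, h6, h7, h8, h9⟩ := h4 w hw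
    refine ⟨w1, hw1, w2, hw2, h6, h7, ?_⟩
    rintro (h10 | h10)
    · exact h8 h10
    · exact h9 h10)
  have h9 := h5 x h6 h7
  exact h8 ⟨h9.2.1, h9.2.2⟩

end Pool.Agent.H158_MS
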