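import Pool.Agent.H158_MS.Cmb

/-!
# Generic coherent systems in the ground model
-/

set_option autoImplicit false
set_option linter.unusedSectionVars false
set_option linter.unreachableTactic false
set_option linter.unusedTactic false

namespace Pool.Agent.H158_MS

open Pool.Agent.W868 Pool.Agent.W868.GM Pool.Agent.R597 Pool.Agent.Y588 Pool.Agent.H158_PC
open ZFSet (pair)

/-- Transitive models of ZF with a definable choice function. -/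
structure Gd (V : Set ZFSet.{0}) : Prop where
  zf : IsZF V
  eg : Pool.Agent.H158_PC.eg ∈ V
  gc : ∃ e, GC V e

theorem kll.mono {W p q s v : ZFSet.{0}} (h : kll W p s v) (hq : p ⊆ q) : kll W q s v :=
  fun r hr h1 => h r hr fun _ hx => h1 (hq hx)

theorem fs_PP {a : ZFSet.{0}} (ha : a ∈ PP) : fs a = nat (ln a) := by
  obtain ⟨n, b, rfl⟩ := mem_PP.1 ha
  rw [ln_cn, cn, fs_pair]

section
variable {V : Set ZFSet.{0}} (hV : IsZF V) (he : eg ∈ V) {n : ℕ}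
  {F G H : (Fin n → ZFSet.{0}) → ZFSet.{0}}

include hV he

theorem dLe (hF : DfnF V V F) (hG : DfnF V V G) : Dfn V V fun v => pair (F v) (G v) ∈ LL :=
  Dfn.mem (hV.base.pair' hF hG) (DfnF.const (LL_mem hV he))

theorem dcM (hF : DfnF V V F) (hG : DfnF V V G) : Dfn V V fun v => cM (F v) (G v) :=
  (dLe hV he hF hG).or (dLe hV he hG hF)

theorem dcoh (hF : DfnF V V F) : Dfn V V fun v => coh (F v) := by
  refine hV.base.ball (Q := fun u w => ∀ u' ∈ F w, cM (fs u) (fs u') → cM (sn u) (sn u')) hF ?_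
  refine hV.base.ball (Q := fun u' w => cM (fs (w 0)) (fs u') → cM (sn (w 0)) (sn u'))
    hF.tail ?_
  exact (dcM hV he (hV.fs' (DfnF.proj 1)) (hV.fs' (DfnF.proj 0))).imp
    (dcM hV he (hV.sn' (DfnF.proj 1)) (hV.sn' (DfnF.proj 0)))

theorem drch (hF : DfnF V V F) (hG : DfnF V V G) (hH : DfnF V V H) :
    Dfn V V fun v => rch (F v) (G v) (H v) := by
  refine hV.base.bex (Q := fun u w => pair (fs u) (G w) ∈ LL ∧ pair (sn u) (H w) ∈ LL) hF ?_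
  exact (dLe hV he (hV.fs' (DfnF.proj 0)) hG.tail).and (dLe hV he (hV.sn' (DfnF.proj 0)) hH.tail)

theorem dkll {W : ZFSet.{0}} (hW : W ∈ V) (hF : DfnF V V F) (hG : DfnF V V G)
    (hH : DfnF V V H) : Dfn V V fun v => kll W (F v) (G v) (H v) := by
  refine hV.base.ball (Q := fun q w => F w ⊆ q → ¬ rch q (G w) (H w)) (DfnF.const hW) ?_
  exact (hV.base.subset' hF.tail (DfnF.proj 0)).imp
    (Dfn.not (drch hV he (DfnF.proj 0) hG.tail hH.tail))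

theorem drob {W : ZFSet.{0}} (hW : W ∈ V) (hF : DfnF V V F) (hG : DfnF V V G)
    (hH : DfnF V V H) : Dfn V V fun v => rob W (F v) (G v) (H v) := by
  refine hV.base.ball (Q := fun v w => pair v (H w) ∈ LL → ∀ q ∈ W, F w ⊆ q →
    ¬ kll W q (G w) v) (DfnF.const (PP_mem hV he)) ?_
  refine (dLe hV he (DfnF.proj 0) hH.tail).imp ?_
  refine hV.base.ball (Q := fun q w => F (Fin.tail w) ⊆ q → ¬ kll W q (G (Fin.tail w)) (w 0))
    (DfnF.const hW) ?_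
  exact (hV.base.subset' hF.tail.tail (DfnF.proj 0)).imp
    (Dfn.not (dkll hV he hW (DfnF.proj 0) hG.tail.tail (DfnF.proj 1)))

end

theorem Wf_mem {V : Set ZFSet.{0}} (hV : IsZF V) (he : eg ∈ V) {Tt : ZFSet.{0}} (hT : Tt ∈ V) :
    Wf Tt ∈ V :=
  hV.sep_mem (Q := fun p => p ⊆ Tt ∧ coh p) ((hV.base.subset' (DfnF.proj 0) (DfnF.const hT)).and
    (dcoh hV he (DfnF.proj 0))) (HFs_mem hV he)

/-- Chains that meet definable requirements. -/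
theorem chain {V : Set ZFSet.{0}} (hL : Gd V) {W p0 : ZFSet.{0}} (hW : W ∈ V) (hp0 : p0 ∈ W)
    {Q : ZFSet.{0} → ZFSet.{0} → Prop} (hQ : Dfn V V fun w : Fin 2 → ZFSet.{0} => Q (w 0) (w 1))
    (h : ∀ z, IsHF z → ∀ p ∈ W, ∃ q ∈ W, p ⊆ q ∧ Q z q) :
    ∃ G ∈ V, G ⊆ W ∧ (∀ a ∈ G, ∀ b ∈ G, a ⊆ b ∨ b ⊆ a) ∧ ∀ z, IsHF z → ∃ q ∈ G, Q z q := by
  have hV := hL.zf
  have hB := hV.base
  have hω := hV.infinity
  have he := hL.eg
  have hap : ∀ k : ℕ, ap eg (nat k) = hf k := by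
    intro k
    refine ap_unique (mem_eg.2 ⟨k, rfl⟩) fun q hq h1 => ?_
    obtain ⟨m, rfl⟩ := mem_eg.1 hq
    rw [fs_pair] at h1
    rw [nat_injective h1, sn_pair]
  let R : ZFSet.{0} → ZFSet.{0} → Prop := fun a b => fs b = insert (fs a) (fs a) ∧
    sn a ⊆ sn b ∧ Q (ap eg (fs a)) (sn b)
  have hR : Dfn V V fun w : Fin 2 → ZFSet.{0} => R (w 0) (w 1) := by
    refine (Dfn.eq (hV.fs' (DfnF.proj 1)) (hB.insert' (hV.fs' (DfnF.proj 0))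
      (hV.fs' (DfnF.proj 0)))).and ((hB.subset' (hV.sn' (DfnF.proj 0))
      (hV.sn' (DfnF.proj 1))).and ?_)
    exact Dfn.comp2 (Q := Q) hQ (hV.ap' (DfnF.const he) (hV.fs' (DfnF.proj 0)))
      (hV.sn' (DfnF.proj 1))
  obtain ⟨F, hFd, hF0, hFs⟩ := exists_sq hV hL.gc.choose_spec (hV.prod_mem hω hW) (a0 := pair (nat 0) p0)
    (ZFSet.pair_mem_prod.2 ⟨nat_mem_om 0, hp0⟩) hR (by
      intro a ha
      obtain ⟨x, hx, p, hp, rfl⟩ := ZFSet.mem_prod.1 ha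
      obtain ⟨k, rfl⟩ := mem_omega_iff.1 hx
      obtain ⟨q, hq, h1, h2⟩ := h (hf k) ⟨k, rfl⟩ p hp
      refine ⟨pair (nat (k + 1)) q, ZFSet.pair_mem_prod.2 ⟨nat_mem_om _, hq⟩, ?_, ?_, ?_⟩
      · rw [fs_pair, fs_pair]
        rfl
      · rw [sn_pair, sn_pair]
        exact h1
      · rw [sn_pair, fs_pair, hap]
        exact h2)
  have hfs : ∀ k : ℕ, fs (F (nat k)) = nat k := by
    intro k
    induction k with
    | zero => rw [hF0, fs_pair]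
    | succ k ih => rw [(hFs k).2.1, ih]; rfl
  have hle : ∀ k j, sn (F (nat k)) ⊆ sn (F (nat (k + j))) := by
    intro k j
    induction j with
    | zero => exact fun _ hx => hx
    | succ j ih => exact fun _ hx => (hFs (k + j)).2.2.1 (ih hx)
  refine ⟨im (fun z => sn (F z)) ZFSet.omega, hV.im_mem hω (hV.sn' hFd), ?_, ?_, ?_⟩
  · intro a ha
    obtain ⟨z, hz, rfl⟩ := mem_im.1 ha
    obtain ⟨k, rfl⟩ := mem_omega_iff.1 hz
    obtain ⟨x, -, q, hq, h1⟩ := ZFSet.mem_prod.1 (hFs k).1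
    rw [h1, sn_pair]
    exact hq
  · intro a ha b hb
    obtain ⟨z, hz, rfl⟩ := mem_im.1 ha
    obtain ⟨k, rfl⟩ := mem_omega_iff.1 hz
    obtain ⟨z, hz, rfl⟩ := mem_im.1 hb
    obtain ⟨l, rfl⟩ := mem_omega_iff.1 hz
    rcases le_total k l with h1 | h1
    · obtain ⟨j, rfl⟩ := Nat.exists_eq_add_of_le h1
      exact Or.inl (hle k j)
    · obtain ⟨j, rfl⟩ := Nat.exists_eq_add_of_le h1
      exact Or.inr (hle l j)
  · rintro z ⟨k, rfl⟩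
    refine ⟨_, mem_im.2 ⟨nat (k + 1), nat_mem_om _, rfl⟩, ?_⟩
    have h1 := (hFs k).2.2.2
    rwa [hfs, hap] at h1

section
variable {V : Set ZFSet.{0}} (hL : Gd V) {Tt sT : ZFSet.{0}} (hT : TT V Tt sT)

theorem isHF_PP {a : ZFSet.{0}} (ha : a ∈ PP) : IsHF a := by
  obtain ⟨n, b, rfl⟩ := mem_PP.1 ha
  exact isHF_cn n b

include hL hT

theorem dTot (hp : True) : Dfn V V fun w : Fin 2 → ZFSet.{0} => pair (fs (w 0)) sT ∈ LL →
    sn (w 0) ∈ ZFSet.omega → ∃ u ∈ w 1, pair (fs u) (fs (w 0)) ∈ LL ∧ sn (w 0) ⊆ fs (sn u) := by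
  have hV := hL.zf
  have he := hL.eg
  have hsT : sT ∈ V := hV.trans _ (PP_mem hV he) _ hT.sP
  refine (dLe hV he (hV.fs' (DfnF.proj 0)) (DfnF.const hsT)).imp ((Dfn.mem
    (hV.sn' (DfnF.proj 0)) (DfnF.const hV.infinity)).imp ?_)
  refine hV.base.bex (Q := fun u w => pair (fs u) (fs (w 0)) ∈ LL ∧ sn (w 0) ⊆ fs (sn u))
    (DfnF.proj 1) ?_
  exact (dLe hV he (hV.fs' (DfnF.proj 0)) (hV.fs' (DfnF.proj 1))).and
    (hV.base.subset' (hV.sn' (DfnF.proj 1)) (hV.fs' (hV.sn' (DfnF.proj 0))))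

/-- Conditions below which everything can be reached. -/
theorem TT.clA {p s : ZFSet.{0}} (hp : p ∈ Wf Tt) (hs : pair s sT ∈ LL) :
    ∃ q ∈ Wf Tt, p ⊆ q ∧ ∃ w ∈ PP, rob (Wf Tt) q s w := by
  by_contra hcon
  have hV := hL.zf
  have hB := hV.base
  have he := hL.eg
  have hW := Wf_mem hV he hT.mem
  have hpV := hV.trans _ hW _ hp
  have hsV : s ∈ V := hV.trans _ (PP_mem hV he) _ (le_PP hs).1
  have hW' : ZFSet.sep (fun q => p ⊆ q) (Wf Tt) ∈ V := hV.sep_mem (Q := fun q => p ⊆ q)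
    (hB.subset' (DfnF.const hpV) (DfnF.proj 0)) hW
  obtain ⟨G, hG, hGW, hGc, hGQ⟩ := chain hL hW' (ZFSet.mem_sep.2 ⟨hp, fun _ hx => hx⟩)
    (Q := fun z q => (z ∈ PP → ∃ v ∈ PP, pair v z ∈ LL ∧ kll (Wf Tt) q s v) ∧
      (pair (fs z) sT ∈ LL → sn z ∈ ZFSet.omega → ∃ u ∈ q, pair (fs u) (fs z) ∈ LL ∧
        sn z ⊆ fs (sn u))) (by
      refine Dfn.and ((Dfn.mem (DfnF.proj 0) (DfnF.const (PP_mem hV he))).imp ?_)
        (dTot hL hT trivial)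
      refine hB.bex (Q := fun v w => pair v (w 0) ∈ LL ∧ kll (Wf Tt) (w 1) s v)
        (DfnF.const (PP_mem hV he)) ?_
      exact (dLe hV he (DfnF.proj 0) (DfnF.proj 1)).and
        (dkll hV he hW (DfnF.proj 2) (DfnF.const hsV) (DfnF.proj 0))) (by
      intro z hz q hq
      obtain ⟨hq, hpq⟩ := ZFSet.mem_sep.1 hq
      have h1 : ∃ r ∈ Wf Tt, q ⊆ r ∧ (z ∈ PP → ∃ v ∈ PP, pair v z ∈ LL ∧
          kll (Wf Tt) r s v) := by
        by_cases hzP : z ∈ PP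
        · by_contra h2
          refine hcon ⟨q, hq, hpq, z, hzP, fun v hv hvz r hr hqr hk => ?_⟩
          exact h2 ⟨r, hr, hqr, fun _ => ⟨v, hv, hvz, hk⟩⟩
        · exact ⟨q, hq, fun _ hx => hx, fun h => absurd h hzP⟩
      obtain ⟨r, hr, hqr, hr2⟩ := h1
      by_cases h2 : pair (fs z) sT ∈ LL ∧ sn z ∈ ZFSet.omega
      · obtain ⟨k, hk⟩ := mem_omega_iff.1 h2.2
        obtain ⟨r', hr', hrr, u, hu, hu1, hu2⟩ := hT.tot hr h2.1 k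
        refine ⟨r', ZFSet.mem_sep.2 ⟨hr', fun _ hx => hrr (hqr (hpq hx))⟩,
          fun _ hx => hrr (hqr hx), fun hzP => ?_, fun _ _ => ⟨u, hu, hu1, ?_⟩⟩
        · obtain ⟨v, hv, hvz, hk⟩ := hr2 hzP
          exact ⟨v, hv, hvz, hk.mono hrr⟩
        · have h3 := (mem_Wf.1 hr').2.1 hu
          rw [hT.isp h3] at h3
          rw [hk, fs_PP (hT.PPs h3).2, nat_sub]
          exact hu2
      · exact ⟨r, ZFSet.mem_sep.2 ⟨hr, fun _ hx => hqr (hpq hx)⟩, hqr, hr2,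
          fun h3 h4 => absurd ⟨h3, h4⟩ h2⟩)
  have hD : ZFSet.sep (fun v => ∃ q ∈ G, kll (Wf Tt) q s v) PP ∈ V := by
    refine hV.sep_mem (Q := fun v => ∃ q ∈ G, kll (Wf Tt) q s v) ?_ (PP_mem hV he)
    refine hB.bex (Q := fun q w => kll (Wf Tt) q s (w 0)) (DfnF.const hG) ?_
    exact dkll hV he hW (DfnF.proj 0) (DfnF.const hsV) (DfnF.proj 1)
  obtain ⟨s', n, hs', hall⟩ := hT.st _ hD (fun x hx => (ZFSet.mem_sep.1 hx).1) (by
      intro a ha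
      obtain ⟨q, hq, h1, -⟩ := hGQ a (isHF_PP ha)
      obtain ⟨v, hv, hva, hk⟩ := h1 ha
      exact ⟨v, ZFSet.mem_sep.2 ⟨hv, q, hq, hk⟩, hva⟩) (by
      intro a ha b hba
      obtain ⟨-, q, hq, hk⟩ := ZFSet.mem_sep.1 ha
      refine ZFSet.mem_sep.2 ⟨(le_PP hba).1, q, hq, fun r hr hqr h1 => hk r hr hqr ?_⟩
      obtain ⟨u, hu, h2, h3⟩ := h1
      exact ⟨u, hu, h2, leT h3 hba⟩) s hs
  have hs'P := (le_PP hs').1
  obtain ⟨q, hq, -, h1⟩ := hGQ (pair s' (nat n)) ((isHF_PP hs'P).pair (isHF_nat n))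
  rw [fs_pair, sn_pair] at h1
  obtain ⟨u, hu, hu1, hu2⟩ := h1 (leT hs' hs) (nat_mem_om n)
  have hqW := (ZFSet.mem_sep.1 (hGW hq)).1
  have h3 := (mem_Wf.1 hqW).2.1 hu
  rw [hT.isp h3] at h3
  rw [fs_PP (hT.PPs h3).2, nat_sub] at hu2
  obtain ⟨h4, q', hq', hk⟩ := ZFSet.mem_sep.1 (hall _ _ hu1 h3 hu2)
  have hq'W := (ZFSet.mem_sep.1 (hGW hq')).1
  rcases hGc q hq q' hq' with h5 | h5
  · exact hk q' hq'W (fun _ hx => hx) ⟨u, h5 hu, leT hu1 hs', leR h4⟩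
  · exact hk q hqW h5 ⟨u, hu, leT hu1 hs', leR h4⟩

/-- The coherent system. -/
theorem TT.sys : ∃ X ∈ V, X ⊆ Tt ∧ coh X ∧
    (∀ s (n : ℕ), pair s sT ∈ LL → ∃ u ∈ X, pair (fs u) s ∈ LL ∧ n ≤ ln (sn u)) ∧
    ∀ s, pair s sT ∈ LL → ∃ s0 s1 w, pair s0 s ∈ LL ∧ pair s1 s ∈ LL ∧ ¬ cM s0 s1 ∧ w ∈ PP ∧
      (∀ v, pair v w ∈ LL → rch X s0 v) ∧ ∀ v, pair v w ∈ LL → rch X s1 v := by
  have hV := hL.zf
  have hB := hV.base
  have he := hL.eg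
  have hW := Wf_mem hV he hT.mem
  have hsT : sT ∈ V := hV.trans _ (PP_mem hV he) _ hT.sP
  have h0 : (∅ : ZFSet.{0}) ∈ Wf Tt := mem_Wf.2 ⟨isHF_empty, fun x hx =>
    absurd hx (ZFSet.notMem_empty _), fun x hx => absurd hx (ZFSet.notMem_empty _)⟩
  obtain ⟨G, hG, hGW, hGc, hGQ⟩ := chain hL hW h0
    (Q := fun z q => (pair z sT ∈ LL → ∃ s0 ∈ PP, ∃ s1 ∈ PP, ∃ w ∈ PP, (pair s0 z ∈ LL ∧
      pair s1 z ∈ LL ∧ ¬ cM s0 s1) ∧ rob (Wf Tt) q s0 w ∧ rob (Wf Tt) q s1 w) ∧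
      (pair (fs z) sT ∈ LL → sn z ∈ ZFSet.omega → ∃ u ∈ q, pair (fs u) (fs z) ∈ LL ∧
        sn z ⊆ fs (sn u)) ∧ (rch q (fs z) (sn z) ∨ kll (Wf Tt) q (fs z) (sn z))) (by
      refine Dfn.and ((dLe hV he (DfnF.proj 0) (DfnF.const hsT)).imp ?_)
        ((dTot hL hT trivial).and ?_)
      · refine hB.bex (Q := fun s0 v => ∃ s1 ∈ PP, ∃ w ∈ PP, (pair s0 (v 0) ∈ LL ∧
          pair s1 (v 0) ∈ LL ∧ ¬ cM s0 s1) ∧ rob (Wf Tt) (v 1) s0 w ∧ rob (Wf Tt) (v 1) s1 w)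
          (DfnF.const (PP_mem hV he)) ?_
        refine hB.bex (Q := fun s1 v => ∃ w ∈ PP, (pair (v 0) (v 1) ∈ LL ∧
          pair s1 (v 1) ∈ LL ∧ ¬ cM (v 0) s1) ∧ rob (Wf Tt) (v 2) (v 0) w ∧
            rob (Wf Tt) (v 2) s1 w) (DfnF.const (PP_mem hV he)) ?_
        refine hB.bex (Q := fun w v => (pair (v 1) (v 2) ∈ LL ∧
          pair (v 0) (v 2) ∈ LL ∧ ¬ cM (v 1) (v 0)) ∧ rob (Wf Tt) (v 3) (v 1) w ∧
            rob (Wf Tt) (v 3) (v 0) w) (DfnF.const (PP_mem hV he)) ?_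
        refine Dfn.and ((dLe hV he (DfnF.proj 2) (DfnF.proj 3)).and
          ((dLe hV he (DfnF.proj 1) (DfnF.proj 3)).and
            (Dfn.not (dcM hV he (DfnF.proj 2) (DfnF.proj 1))))) ?_
        exact (drob hV he hW (DfnF.proj 4) (DfnF.proj 2) (DfnF.proj 0)).and
          (drob hV he hW (DfnF.proj 4) (DfnF.proj 1) (DfnF.proj 0))
      · exact (drch hV he (DfnF.proj 1) (hV.fs' (DfnF.proj 0)) (hV.sn' (DfnF.proj 0))).or
          (dkll hV he hW (DfnF.proj 1) (hV.fs' (DfnF.proj 0)) (hV.sn' (DfnF.proj 0)))) (by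
      intro z hz q hq
      have h1 : ∃ r ∈ Wf Tt, q ⊆ r ∧ (pair z sT ∈ LL → ∃ s0 ∈ PP, ∃ s1 ∈ PP, ∃ w ∈ PP,
          (pair s0 z ∈ LL ∧ pair s1 z ∈ LL ∧ ¬ cM s0 s1) ∧ rob (Wf Tt) r s0 w ∧
            rob (Wf Tt) r s1 w) := by
        by_cases hz1 : pair z sT ∈ LL
        · obtain ⟨r, hr, hqr, s0, s1, w, h2, h3, h4, h5, h6, h7⟩ := hT.Fd
            (fun p hp s hs => hT.clA hL hp hs) hq hz1
          exact ⟨r, hr, hqr, fun _ => ⟨s0, (le_PP h2).1, s1, (le_PP h3).1, w, h5,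
            ⟨h2, h3, h4⟩, h6, h7⟩⟩
        · exact ⟨q, hq, fun _ hx => hx, fun h => absurd h hz1⟩
      obtain ⟨r, hr, hqr, hr1⟩ := h1
      have h2 : ∃ r' ∈ Wf Tt, r ⊆ r' ∧ (pair (fs z) sT ∈ LL → sn z ∈ ZFSet.omega →
          ∃ u ∈ r', pair (fs u) (fs z) ∈ LL ∧ sn z ⊆ fs (sn u)) := by
        by_cases h2 : pair (fs z) sT ∈ LL ∧ sn z ∈ ZFSet.omega
        · obtain ⟨k, hk⟩ := mem_omega_iff.1 h2.2
          obtain ⟨r', hr', hrr, u, hu, hu1, hu2⟩ := hT.tot hr h2.1 k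
          refine ⟨r', hr', hrr, fun _ _ => ⟨u, hu, hu1, ?_⟩⟩
          have h3 := (mem_Wf.1 hr').2.1 hu
          rw [hT.isp h3] at h3
          rw [hk, fs_PP (hT.PPs h3).2, nat_sub]
          exact hu2
        · exact ⟨r, hr, fun _ hx => hx, fun h3 h4 => absurd ⟨h3, h4⟩ h2⟩
      obtain ⟨r', hr', hrr, hr2⟩ := h2
      have h3 : ∃ t ∈ Wf Tt, r' ⊆ t ∧ (rch t (fs z) (sn z) ∨ kll (Wf Tt) t (fs z) (sn z)) := by
        by_cases h3 : kll (Wf Tt) r' (fs z) (sn z)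
        · exact ⟨r', hr', fun _ hx => hx, Or.inr h3⟩
        · unfold kll at h3
          push Not at h3
          obtain ⟨t, ht, h4, h5⟩ := h3
          exact ⟨t, ht, h4, Or.inl h5⟩
      obtain ⟨t, ht, hrt, ht1⟩ := h3
      refine ⟨t, ht, fun _ hx => hrt (hrr (hqr hx)), fun hz1 => ?_, fun hz1 hz2 => ?_, ht1⟩
      · obtain ⟨s0, h4, s1, h5, w, h6, h7, h8, h9⟩ := hr1 hz1
        exact ⟨s0, h4, s1, h5, w, h6, h7, h8.mono (fun _ hx => hrt (hrr hx)) (leR h6),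
          h9.mono (fun _ hx => hrt (hrr hx)) (leR h6)⟩
      · obtain ⟨u, hu, hu1⟩ := hr2 hz1 hz2
        exact ⟨u, hrt hu, hu1⟩)
  have hreach : ∀ q ∈ G, ∀ s ∈ PP, ∀ w ∈ PP, rob (Wf Tt) q s w → ∀ v, pair v w ∈ LL →
      rch (ZFSet.sUnion G) s v := by
    intro q hq s hs w hw hr v hvw
    obtain ⟨q', hq', -, -, h1⟩ := hGQ (pair s v) ((isHF_PP hs).pair (isHF_PP (le_PP hvw).1))
    rw [fs_pair, sn_pair] at h1
    rcases h1 with h1 | h1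
    · exact h1.mono fun x hx => ZFSet.mem_sUnion.2 ⟨q', hq', hx⟩
    · exfalso
      rcases hGc q hq q' hq' with h2 | h2
      · exact hr v (le_PP hvw).1 hvw q' (hGW hq') h2 h1
      · exact hr v (le_PP hvw).1 hvw q (hGW hq) (fun _ hx => hx) (h1.mono h2)
  have hUG : (ZFSet.sUnion G : ZFSet.{0}) ∈ V :=
    (hB.sUnion' (n := 0) (DfnF.const hG)).1 (fun i => i.elim0) (fun i => i.elim0)
  refine ⟨ZFSet.sUnion G, hUG, ?_, ?_, ?_, ?_⟩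
  · intro x hx
    obtain ⟨q, hq, h1⟩ := ZFSet.mem_sUnion.1 hx
    exact (mem_Wf.1 (hGW hq)).2.1 h1
  · intro u hu u' hu' hc
    obtain ⟨q, hq, h1⟩ := ZFSet.mem_sUnion.1 hu
    obtain ⟨q', hq', h2⟩ := ZFSet.mem_sUnion.1 hu'
    rcases hGc q hq q' hq' with h3 | h3
    · exact (mem_Wf.1 (hGW hq')).2.2 u (h3 h1) u' h2 hc
    · exact (mem_Wf.1 (hGW hq)).2.2 u h1 u' (h3 h2) hc
  · intro s n hs
    obtain ⟨q, hq, -, h1, -⟩ := hGQ (pair s (nat n)) ((isHF_PP (le_PP hs).1).pair (isHF_nat n))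
    rw [fs_pair, sn_pair] at h1
    obtain ⟨u, hu, hu1, hu2⟩ := h1 hs (nat_mem_om n)
    refine ⟨u, ZFSet.mem_sUnion.2 ⟨q, hq, hu⟩, hu1, ?_⟩
    have h3 := (mem_Wf.1 (hGW hq)).2.1 hu
    rw [hT.isp h3] at h3
    rwa [fs_PP (hT.PPs h3).2, nat_sub] at hu2
  · intro s hs
    obtain ⟨q, hq, h1, -⟩ := hGQ s (isHF_PP (le_PP hs).1)
    obtain ⟨s0, h4, s1, h5, w, h6, ⟨h7, h8, h9⟩, h10, h11⟩ := h1 hs
    exact ⟨s0, s1, w, h7, h8, h9, h6, hreach q hq s0 h4 w h6 h10, hreach q hq s1 h5 w h6 h11⟩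

end

end Pool.Agent.H158_MS
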