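import Pool.Agent.H158_MS.Brn

/-!
# Names of perfect trees of generic reals
-/

set_option autoImplicit false
set_option linter.unusedSectionVars false
set_option linter.unreachableTactic false
set_option linter.unusedTactic false

namespace Pool.Agent.H158_MS

open Pool.Agent.W868 Pool.Agent.W868.GM Pool.Agent.R597 Pool.Agent.Y588 Pool.Agent.H158_PC
open ZFSet (pair)

theorem leg {n m : ℕ} (g : Set ℕ) (h : n ≤ m) : pair (cn m g) (cn n g) ∈ LL :=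
  le_iff.2 ⟨h, fun _ _ => Iff.rfl⟩

theorem of_leg {n : ℕ} {g : Set ℕ} {p : ZFSet.{0}} (h : pair (cn n g) p ∈ LL) :
    ∃ m, p = cn m g := by
  obtain ⟨m, b, rfl⟩ := mem_PP.1 (le_PP h).2
  exact ⟨m, cn_congr fun i hi => ((le_iff.1 h).2 i hi).symm⟩

theorem exists_TT {V : Set ZFSet.{0}} (hL : Gd V) (hc : V.Countable) {g : Set ℕ} (hg : Gn V g)
    {T : ZFSet.{0}} (hT : T ∈ ext V (Gf g)) (hTP : T ⊆ PP) (hroot : cn 0 ∅ ∈ T)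
    (hcl : ∀ a ∈ T, ∀ b, pair a b ∈ LL → b ∈ T)
    (hsp : ∀ w ∈ T, ∃ w1 ∈ T, ∃ w2 ∈ T, pair w1 w ∈ LL ∧ pair w2 w ∈ LL ∧ ¬ cM w1 w2)
    (hbr : ∀ x, nm x ∈ ext V (Gf g) → (∀ n, cn n x ∈ T) → Gn V x) :
    ∃ (Tt : ZFSet.{0}) (N : ℕ), TT V Tt (cn N g) ∧
      ∀ (n : ℕ) (w : ZFSet.{0}), pair (cn n g) w ∈ Tt → w ∈ T := by
  have hV := hL.zf
  have hB := hV.base
  have he := hL.eg
  have hPP := PP_mem hV he
  have hLL := LL_mem hV he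
  have hω := hV.infinity
  have hP := forcing_PP hV he
  have hG := gen_of_Gn hg
  have hM := ZE.zf_ext hV hP hG
  have hVM := ZE.sub_ext' hV hP hG
  obtain ⟨θ, hθ, hev⟩ := id hT
  obtain ⟨F, hF, hFr⟩ := rel hL hc hθ
  obtain ⟨Tt, hTV, hTt⟩ : ∃ Tt ∈ V, ∀ s w, pair s w ∈ Tt ↔ s ∈ PP ∧ w ∈ PP ∧
      ∃ p ∈ PP, pair p w ∈ F ∧ pair s p ∈ LL := by
    refine ⟨ZFSet.sep (fun u => ∃ p ∈ PP, pair p (sn u) ∈ F ∧ pair (fs u) p ∈ LL)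
      (ZFSet.prod PP PP), hV.sep_mem (Q := fun u => ∃ p ∈ PP, pair p (sn u) ∈ F ∧
        pair (fs u) p ∈ LL) ?_ (hV.prod_mem hPP hPP), fun s w => ?_⟩
    · refine hB.bex (Q := fun p w => pair p (sn (w 0)) ∈ F ∧ pair (fs (w 0)) p ∈ LL)
        (DfnF.const hPP) ?_
      exact (Dfn.mem (hB.pair' (DfnF.proj 0) (hV.sn' (DfnF.proj 1))) (DfnF.const hF)).and
        (dLe hV he (hV.fs' (DfnF.proj 1)) (DfnF.proj 0))
    · rw [ZFSet.mem_sep, ZFSet.pair_mem_prod, fs_pair, sn_pair]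
      tauto
  have hTsub : ∀ u ∈ Tt, ∃ s w, u = pair s w → True := fun u _ => ⟨u, u, fun _ => trivial⟩
  -- only pairs
  obtain ⟨Tt, hTV, hTt, hTs⟩ : ∃ Tt ∈ V, (∀ s w, pair s w ∈ Tt ↔ s ∈ PP ∧ w ∈ PP ∧
      ∃ p ∈ PP, pair p w ∈ F ∧ pair s p ∈ LL) ∧ Tt ⊆ ZFSet.prod PP PP := by
    refine ⟨ZFSet.sep (fun u => u ∈ Tt) (ZFSet.prod PP PP), hV.sep_mem (Q := fun u => u ∈ Tt)
      (Dfn.mem (DfnF.proj 0) (DfnF.const hTV)) (hV.prod_mem hPP hPP), fun s w => ?_,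
      fun u hu => (ZFSet.mem_sep.1 hu).1⟩
    rw [ZFSet.mem_sep, hTt, ZFSet.pair_mem_prod]
    tauto
  have hdn : ∀ s s' w, pair s w ∈ Tt → pair s' s ∈ LL → pair s' w ∈ Tt := by
    intro s s' w h h'
    obtain ⟨h1, h2, p, hp, h3, h4⟩ := (hTt _ _).1 h
    exact (hTt _ _).2 ⟨(le_PP h').1, h2, p, hp, h3, leT h' h4⟩
  have hTg1 : ∀ (n : ℕ) (w : ZFSet.{0}), pair (cn n g) w ∈ Tt → w ∈ T := by
    intro n w h
    obtain ⟨h1, h2, p, hp, h3, h4⟩ := (hTt _ _).1 h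
    obtain ⟨m, rfl⟩ := of_leg h4
    have h5 := (hFr g hg w (isHF_PP h2)).2 ⟨m, h3⟩
    rwa [hev] at h5
  have hTg2 : ∀ w ∈ T, ∃ n : ℕ, pair (cn n g) w ∈ Tt := by
    intro w hw
    have h2 := hTP hw
    rw [← hev] at hw
    obtain ⟨n, hn⟩ := (hFr g hg w (isHF_PP h2)).1 hw
    exact ⟨n, (hTt _ _).2 ⟨cn_mem_PP _ _, h2, _, cn_mem_PP _ _, hn, leR (cn_mem_PP _ _)⟩⟩
  obtain ⟨N0, hN0⟩ := hTg2 _ hroot
  -- splitting
  have hB1V : ZFSet.sep (fun a => ∃ w ∈ PP, pair a w ∈ Tt ∧ ¬ ∃ s' ∈ PP, ∃ w1 ∈ PP, ∃ w2 ∈ PP,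
      (pair s' a ∈ LL ∧ pair w1 w ∈ LL ∧ pair w2 w ∈ LL) ∧ ¬ cM w1 w2 ∧ pair s' w1 ∈ Tt ∧
        pair s' w2 ∈ Tt) PP ∈ V := by
    refine hV.sep_mem (Q := fun a => ∃ w ∈ PP, pair a w ∈ Tt ∧ ¬ ∃ s' ∈ PP, ∃ w1 ∈ PP,
      ∃ w2 ∈ PP, (pair s' a ∈ LL ∧ pair w1 w ∈ LL ∧ pair w2 w ∈ LL) ∧ ¬ cM w1 w2 ∧
        pair s' w1 ∈ Tt ∧ pair s' w2 ∈ Tt) ?_ hPP
    (repeat' first
      | assumption
      | exact DfnF.proj _
      | exact DfnF.const (by assumption)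
      | apply dcM hV he
      | apply Dfn.not | apply Dfn.and | apply Dfn.or | apply Dfn.imp
      | apply hB.bex | apply hB.ball
      | apply Dfn.eq | apply Dfn.mem | apply hB.pair')
  obtain ⟨m1, hm1⟩ := bad hL hg hB1V (by
    intro n hn
    obtain ⟨-, w, hw, h1, h2⟩ := ZFSet.mem_sep.1 hn
    obtain ⟨w1, hw1, w2, hw2, h3, h4, h5⟩ := hsp w (hTg1 n w h1)
    obtain ⟨n1, hn1⟩ := hTg2 w1 hw1
    obtain ⟨n2, hn2⟩ := hTg2 w2 hw2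
    exact h2 ⟨cn (max n (max n1 n2)) g, cn_mem_PP _ _, w1, hTP hw1, w2, hTP hw2,
      ⟨leg g (le_max_left _ _), h3, h4⟩, h5,
      hdn _ _ _ hn1 (leg g (le_trans (le_max_left _ _) (le_max_right _ _))),
      hdn _ _ _ hn2 (leg g (le_trans (le_max_right _ _) (le_max_right _ _)))⟩)
  -- dense sets
  obtain ⟨Y, hY, hYm⟩ := hV.power PP hPP
  have hB2V : ZFSet.sep (fun a => ∃ D ∈ Y, ((∀ p ∈ PP, ∃ q ∈ D, pair q p ∈ LL) ∧
      ∀ p ∈ D, ∀ q ∈ PP, pair q p ∈ LL → q ∈ D) ∧ ∀ s' ∈ PP, pair s' a ∈ LL →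
      ∀ n ∈ ZFSet.omega, ∃ s'' ∈ PP, pair s'' s' ∈ LL ∧ ∃ w ∈ PP, pair s'' w ∈ Tt ∧
        n ⊆ fs w ∧ ¬ w ∈ D) PP ∈ V := by
    refine hV.sep_mem (Q := fun a => ∃ D ∈ Y, ((∀ p ∈ PP, ∃ q ∈ D, pair q p ∈ LL) ∧
      ∀ p ∈ D, ∀ q ∈ PP, pair q p ∈ LL → q ∈ D) ∧ ∀ s' ∈ PP, pair s' a ∈ LL →
      ∀ n ∈ ZFSet.omega, ∃ s'' ∈ PP, pair s'' s' ∈ LL ∧ ∃ w ∈ PP, pair s'' w ∈ Tt ∧
        n ⊆ fs w ∧ ¬ w ∈ D) ?_ hPP
    (repeat' first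
      | assumption
      | exact DfnF.proj _
      | exact DfnF.const (by assumption)
      | apply Dfn.not | apply Dfn.and | apply Dfn.or | apply Dfn.imp
      | apply hB.bex | apply hB.subset' | apply hB.ball | apply hV.fs'
      | apply Dfn.eq | apply Dfn.mem | apply hB.pair')
  obtain ⟨m2, hm2⟩ := bad hL hg hB2V (by
    intro n hn
    obtain ⟨-, D, hD, ⟨hd, ho⟩, hno⟩ := ZFSet.mem_sep.1 hn
    obtain ⟨hDV, hDP⟩ := (hYm D).1 hD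
    have hcp : ∃ k : ℕ, ∀ w ∈ T, k ≤ ln w → w ∈ D := by
      by_contra hcon
      push Not at hcon
      have hTD : ZFSet.sep (fun w => ¬ w ∈ D) T ∈ ext V (Gf g) :=
        hM.sep_mem (Q := fun w => ¬ w ∈ D)
          (Dfn.not (Dfn.mem (DfnF.proj 0) (DfnF.const (hVM hDV)))) hT
      obtain ⟨x, hx⟩ := cpt (T := ZFSet.sep (fun w => ¬ w ∈ D) T)
        (fun w hw => hTP (ZFSet.mem_sep.1 hw).1) (by
          intro a ha b hab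
          obtain ⟨h1, h2⟩ := ZFSet.mem_sep.1 ha
          exact ZFSet.mem_sep.2 ⟨hcl a h1 b hab, fun h3 => h2 (ho b h3 a (le_PP hab).1 hab)⟩)
        (by
          intro k
          obtain ⟨w, hw, h1, h2⟩ := hcon k
          exact ⟨w, ZFSet.mem_sep.2 ⟨hw, h2⟩, h1⟩)
      obtain ⟨x', hx', h1⟩ := brn hM (hVM he) hTD hx
      obtain ⟨k, hk⟩ := hbr x' hx' (fun n => (ZFSet.mem_sep.1 (h1 n)).1) D hDV hDP hd
      exact (ZFSet.mem_sep.1 (h1 k)).2 hk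
    obtain ⟨k, hk⟩ := hcp
    have hkV := hV.nat_mem k
    have hBDV : ZFSet.sep (fun s => ∃ w ∈ PP, pair s w ∈ Tt ∧ nat k ⊆ fs w ∧ ¬ w ∈ D) PP ∈ V := by
      refine hV.sep_mem (Q := fun s => ∃ w ∈ PP, pair s w ∈ Tt ∧ nat k ⊆ fs w ∧ ¬ w ∈ D) ?_ hPP
      (repeat' first
        | assumption
        | exact DfnF.proj _
        | exact DfnF.const (by assumption)
        | apply Dfn.not | apply Dfn.and | apply Dfn.or | apply Dfn.imp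
        | apply hB.bex | apply hB.subset' | apply hB.ball | apply hV.fs'
        | apply Dfn.eq | apply Dfn.mem | apply hB.pair')
    obtain ⟨m, hm⟩ := bad hL hg hBDV (by
      intro j hj
      obtain ⟨-, w, hw, h1, h2, h3⟩ := ZFSet.mem_sep.1 hj
      rw [fs_PP hw, nat_sub] at h2
      exact h3 (hk w (hTg1 j w h1) h2))
    obtain ⟨s'', hs'', h1, w, hw, h2, h3, h4⟩ := hno (cn (max m n) g) (cn_mem_PP _ _)
      (leg g (le_max_right _ _)) (nat k) (nat_mem_om k)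
    exact hm s'' (leT h1 (leg g (le_max_left _ _))) (ZFSet.mem_sep.2 ⟨hs'', w, hw, h2, h3, h4⟩))
  refine ⟨Tt, max N0 (max m1 m2), ?_, hTg1⟩
  have hle0 : pair (cn (max N0 (max m1 m2)) g) (cn N0 g) ∈ LL := leg g (le_max_left _ _)
  have hle1 : pair (cn (max N0 (max m1 m2)) g) (cn m1 g) ∈ LL :=
    leg g (le_trans (le_max_left _ _) (le_max_right _ _))
  have hle2 : pair (cn (max N0 (max m1 m2)) g) (cn m2 g) ∈ LL :=
    leg g (le_trans (le_max_right _ _) (le_max_right _ _))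
  refine ⟨hTV, hTs, cn_mem_PP _ _, hdn, ?_, ?_, ?_⟩
  · intro s hs
    exact hdn _ _ _ hN0 (leT hs hle0)
  · intro s w hsw hs
    by_contra hcon
    obtain ⟨hsP, hwP, -⟩ := (hTt _ _).1 hsw
    refine hm1 s (leT hs hle1) (ZFSet.mem_sep.2 ⟨hsP, w, hwP, hsw, ?_⟩)
    rintro ⟨s', hs', w1, hw1, w2, hw2, ⟨h1, h2, h3⟩, h4, h5, h6⟩
    exact hcon ⟨s', w1, w2, h1, h2, h3, h4, h5, h6⟩
  · intro D hD hDP hd ho s hs
    by_contra hcon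
    refine hm2 s (leT hs hle2) (ZFSet.mem_sep.2 ⟨(le_PP hs).1, D, (hYm D).2 ⟨hD, hDP⟩,
      ⟨hd, fun p hp q _ hqp => ho p hp q hqp⟩, fun s' hs' hs's n hn => ?_⟩)
    obtain ⟨k, rfl⟩ := mem_omega_iff.1 hn
    by_contra hcon2
    refine hcon ⟨s', k, hs's, fun s'' w h1 h2 h3 => ?_⟩
    by_contra h4
    obtain ⟨hsP, hwP, -⟩ := (hTt _ _).1 h2
    refine hcon2 ⟨s'', hsP, h1, w, hwP, h2, ?_, h4⟩
    rw [fs_PP hwP, nat_sub]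
    exact h3

end Pool.Agent.H158_MS
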